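import Mathlib.Algebra.Module.ZLattice.Basic
import Mathlib.MeasureTheory.Group.GeometryOfNumbers
import Pool.Agent.MP_54e5d7_al.atc.ker.Ker
import Pool.Agent.MP_54e5d7_al.atc.Hol1

-- ======== part 0: formerly Pool.Agent.MP_54e5d7_al.atc.ar.Tr
section MrgPart0

/-!
PROJECT ATC, block ARITH: traces of congruence elements; the lattice properties.
-/

set_option autoImplicit false

open scoped ComplexConjugate
open Matrix

namespace Pool.Agent.MP_54e5d7_al.Atc.Ar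

theorem entry_le (g : SU21) (i j : Fin 3) : ‖g.1.1 i j‖ ≤ ‖g.1.1 2 2‖ := by
  have hc : ∀ j : Fin 3, ‖g.1.1 0 j‖ ^ 2 + ‖g.1.1 1 j‖ ^ 2 - ‖g.1.1 2 j‖ ^ 2 =
      (H (Pi.single j 1) (Pi.single j 1)).re := fun j => by
    rw [← H_mv g, H_self_re]
    simp [mv]
  have h0 := hc 0
  have h1 := hc 1
  have h2 := hc 2
  have hu : ∀ j : Fin 3, H (Pi.single j 1) (mv g⁻¹ (Pi.single 2 1)) = -g.1.1 2 j := fun j => by
    rw [← H_mv g, mv_mv_inv]
    simp [mv, H]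
  have hr := congrArg Complex.re (H_mv g⁻¹ (Pi.single 2 1) (Pi.single 2 1))
  have u0 := congrArg norm (hu 0)
  have u1 := congrArg norm (hu 1)
  have u2 := congrArg norm (hu 2)
  rw [H_self_re] at hr
  simp [H] at h0 h1 h2 hr u0 u1 u2
  rw [u0, u1, u2] at hr
  refine abs_le_of_sq_le_sq' ?_ (norm_nonneg _) |>.2
  have := sq_nonneg ‖g.1.1 0 0‖
  have := sq_nonneg ‖g.1.1 0 1‖
  have := sq_nonneg ‖g.1.1 0 2‖
  have := sq_nonneg ‖g.1.1 1 0‖
  have := sq_nonneg ‖g.1.1 1 1‖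
  have := sq_nonneg ‖g.1.1 1 2‖
  have := sq_nonneg ‖g.1.1 2 0‖
  have := sq_nonneg ‖g.1.1 2 1‖
  fin_cases i <;> fin_cases j <;> simp only [Fin.zero_eta, Fin.mk_one, Fin.reduceFinMk] <;> linarith

theorem jf_zero (g : SU21) : jf g 0 = g.1.1 2 2 := by
  simp [jf, mv, hat, mulVec, dotProduct, Fin.sum_univ_three]

theorem one_sub_nsq_zero (g : SU21) : (1 - nsq (act g 0))⁻¹ = ‖g.1.1 2 2‖ ^ 2 := by
  rw [one_sub_nsq_act g zero_mem_B, nsq_zero, jf_zero]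
  simp

theorem trace_le (g : SU21) {z : C2} (hz : z ∈ B) : ‖g.1.1.trace‖ ^ 2 ≤ 9 * ch2 z (act g z) := by
  obtain ⟨a, rfl⟩ := exists_act_zero hz
  have h1 : ch2 (act a 0) (act g (act a 0)) = ‖(a⁻¹ * g * a).1.1 2 2‖ ^ 2 := by
    rw [← one_sub_nsq_zero, ← ch2_zero, ch2_symm,
      ← ch2_act a (act_mem _ zero_mem_B) zero_mem_B, ← act_mul _ _ zero_mem_B,
      ← act_mul _ _ zero_mem_B]
    congr 2
    group
  have h2 : (a⁻¹ * g * a).1.1.trace = g.1.1.trace := by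
    have h3 : (a⁻¹ * g * a).1.1 = a⁻¹.1.1 * g.1.1 * a.1.1 := rfl
    have h4 : a.1.1 * a⁻¹.1.1 = 1 := by
      have h5 : (a * a⁻¹).1.1 = 1 := by rw [mul_inv_cancel]; rfl
      exact h5
    rw [h3, trace_mul_cycle, h4, one_mul]
  rw [h1, ← h2, trace_fin_three]
  have h6 := (norm_add₃_le (a := (a⁻¹ * g * a).1.1 0 0) (b := (a⁻¹ * g * a).1.1 1 1)
    (c := (a⁻¹ * g * a).1.1 2 2))
  have h7 := entry_le (a⁻¹ * g * a) 0 0
  have h8 := entry_le (a⁻¹ * g * a) 1 1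
  calc _ ≤ (3 * ‖(a⁻¹ * g * a).1.1 2 2‖) ^ 2 := by gcongr; linarith
    _ = _ := by ring

theorem Hp_self_re (v : V3) : (Hp v v).re = n2 v := by
  simp [Hp, n2, Complex.sq_norm, Complex.normSq_apply]

theorem col_two {A : M3} (hh : ∀ v w, hO (A *ᵥ v) (A *ᵥ w) = hO v w) (j : Fin 3) :
    ‖mat s2 A 0 j‖ ^ 2 + ‖mat s2 A 1 j‖ ^ 2 + ‖mat s2 A 2 j‖ ^ 2 = 1 := by
  have h1 : n2 (mat s2 A *ᵥ e2 (Pi.single j 1)) = n2 (e2 (Pi.single j 1)) := by
    rw [mat2_mulVec, ← Hp_self_re, ← Hp_self_re, Hp_e2, Hp_e2, hh]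
  have h2 : e2 (Pi.single j 1) = sc j • Pi.single j 1 := by
    ext i
    rw [e2_apply]
    by_cases h : i = j
    · subst h
      simp
    · simp [h]
  have h3 : 0 < ‖sc j‖ ^ 2 := pow_pos (norm_pos_iff.2 (sc_ne j)) 2
  rw [h2, mulVec_smul] at h1
  simp only [n2, Pi.smul_apply, smul_eq_mul, norm_mul, mul_pow, mulVec_single_one,
    col_apply] at h1
  have h4 : ‖(Pi.single j 1 : V3) 0‖ ^ 2 + ‖(Pi.single j 1 : V3) 1‖ ^ 2 +
      ‖(Pi.single j 1 : V3) 2‖ ^ 2 = 1 := by fin_cases j <;> simp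
  refine mul_left_cancel₀ h3.ne' ?_
  linear_combination h1 + ‖sc j‖ ^ 2 * h4

theorem entry_two {A : M3} (hh : ∀ v w, hO (A *ᵥ v) (A *ᵥ w) = hO v w) (i j : Fin 3) :
    ‖mat s2 A i j‖ ≤ 1 := by
  have h := col_two hh j
  refine abs_le_of_sq_le_sq' ?_ zero_le_one |>.2
  have := sq_nonneg ‖mat s2 A 0 j‖
  have := sq_nonneg ‖mat s2 A 1 j‖
  have := sq_nonneg ‖mat s2 A 2 j‖
  fin_cases i <;> simp only [Fin.zero_eta, Fin.mk_one, Fin.reduceFinMk] <;> linarith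

theorem mat2_inj : Function.Injective (mat s2) := fun A A' h => by
  ext1 i j
  apply s2_inj
  have h1 : sc i * s2 (A i j) / sc j = sc i * s2 (A' i j) / sc j := congrFun (congrFun h i) j
  rw [div_left_inj' (sc_ne j)] at h1
  exact mul_left_cancel₀ (sc_ne i) h1

theorem eq_one_of_trace {A : M3} (hh : ∀ v w, hO (A *ᵥ v) (A *ᵥ w) = hO v w)
    (ht : A.trace = 3) : A = 1 := by
  have h1 : (mat s2 A 0 0).re + (mat s2 A 1 1).re + (mat s2 A 2 2).re = 3 := by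
    have h2 := congrArg Complex.re (trace_mat s2 A)
    rw [ht, trace_fin_three, map_ofNat] at h2
    simpa using h2
  have c0 := col_two hh 0
  have c1 := col_two hh 1
  have c2 := col_two hh 2
  have key : ∑ i, ∑ j, ‖mat s2 A i j - (1 : Matrix (Fin 3) (Fin 3) ℂ) i j‖ ^ 2 = 0 := by
    simp only [Complex.sq_norm, Complex.normSq_apply] at c0 c1 c2
    simp [Fin.sum_univ_three, Complex.sq_norm, Complex.normSq_apply]
    linear_combination c0 + c1 + c2 - 2 * h1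
  apply mat2_inj
  rw [mat_one]
  ext i j
  have h3 := (Finset.sum_eq_zero_iff_of_nonneg fun i _ =>
    Finset.sum_nonneg fun j _ => sq_nonneg _).1 key i (Finset.mem_univ _)
  have h4 := (Finset.sum_eq_zero_iff_of_nonneg fun j _ => sq_nonneg _).1 h3 j (Finset.mem_univ _)
  simpa [sub_eq_zero] using h4

/-- nontrivial congruence elements have large trace -/
theorem le_trace {M : ℕ} (hM : 17 ≤ M) {g : SU21} (hg : g ∈ Gam M) (h1 : g ≠ 1) :
    (M : ℝ) ≤ ‖g.1.1.trace‖ := by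
  obtain ⟨Y, hY⟩ := rep_cong ⟨g, hg⟩
  have hh := rep_hO ⟨g, hg⟩
  have ht : (rep M ⟨g, hg⟩).trace = 3 + M * Y.trace := by
    rw [hY, trace_add, trace_smul, trace_one]
    simp
  have h0 : Y.trace ≠ 0 := fun h => h1 (by
    have h2 := eq_one_of_trace hh (by rw [ht, h]; simp)
    exact congrArg Subtype.val (rep_inj (h2.trans (map_one _).symm)))
  have hM' : (17 : ℝ) ≤ M := by exact_mod_cast hM
  have h2 : (M : ℝ) * ‖s2 Y.trace‖ ≤ 6 := by
    have h3 : (M : ℂ) * s2 Y.trace = (mat s2 (rep M ⟨g, hg⟩)).trace - 3 := by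
      rw [trace_mat, ht, map_add, map_mul, map_natCast, map_ofNat]
      ring
    have h4 := congrArg norm h3
    rw [norm_mul, Complex.norm_natCast] at h4
    rw [h4, trace_fin_three]
    refine (norm_sub_le _ _).trans ?_
    have h5 := (norm_add₃_le (a := mat s2 (rep M ⟨g, hg⟩) 0 0) (b := mat s2 (rep M ⟨g, hg⟩) 1 1)
      (c := mat s2 (rep M ⟨g, hg⟩) 2 2))
    have := entry_two hh 0 0
    have := entry_two hh 1 1
    have := entry_two hh 2 2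
    have : ‖(3 : ℂ)‖ = 3 := by simp
    linarith
  have h3 : (M : ℝ) * ‖s1 Y.trace‖ ≤ ‖g.1.1.trace‖ + 3 := by
    have h3 : (M : ℂ) * s1 Y.trace = g.1.1.trace - 3 := by
      rw [← mat_rep ⟨g, hg⟩, trace_mat, ht, map_add, map_mul, map_natCast, map_ofNat]
      ring
    have h4 := congrArg norm h3
    rw [norm_mul, Complex.norm_natCast] at h4
    rw [h4]
    simpa using norm_sub_le g.1.1.trace 3
  have h4 := one_le h0
  have h5 : (M : ℝ) ≤ 6 * ‖s1 Y.trace‖ := by nlinarith [norm_nonneg (s1 Y.trace)]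
  nlinarith

theorem deep {M : ℕ} (hM : 17 ≤ M) : Deep (Gam M) M := by
  intro g hg h1 z hz
  have h2 := le_trace hM hg h1
  have h3 := trace_le g hz
  have hM' : (17 : ℝ) ≤ M := by exact_mod_cast hM
  nlinarith

theorem ch2_self {z : C2} (hz : z ∈ B) : ch2 z z = 1 := by
  have h : nsq z < 1 := hz
  rw [ch2, H_hat, Complex.norm_real, Real.norm_eq_abs, sq_abs, div_eq_one_iff_eq (by
    apply mul_ne_zero <;> linarith)]
  ring

theorem lox_of_trace {g : SU21} (h : 3 < ‖g.1.1.trace‖) : Lox g := by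
  by_contra hl
  have h1 : ∀ a ∈ g.1.1.charpoly.roots, ‖a‖ ≤ 1 := fun a ha => by
    have h2 : (scalar (Fin 3) a - g.1.1).det = 0 := by
      rw [← eval_charpoly]
      exact (Polynomial.mem_roots (charpoly_monic _).ne_zero).1 ha
    obtain ⟨v, hv, h3⟩ := exists_mulVec_eq_zero_iff.2 h2
    have h4 : mv g v = a • v := by
      rw [sub_mulVec, sub_eq_zero] at h3
      rw [mv, ← h3]
      ext i
      simp [mulVec_diagonal]
    exact (not_not.1 fun h5 => hl (lox_of_eigen g hv h4 h5)).le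
  have h2 : g.1.1.charpoly.roots.card ≤ 3 :=
    (Polynomial.card_roots' _).trans (by rw [charpoly_natDegree_eq_dim]; simp)
  rw [trace_eq_sum_roots_charpoly] at h
  have h3 := (norm_multiset_sum_le g.1.1.charpoly.roots).trans
    (Multiset.sum_le_card_nsmul _ 1 (by
      intro x hx
      obtain ⟨a, ha, rfl⟩ := Multiset.mem_map.1 hx
      exact h1 a ha))
  rw [Multiset.card_map, nsmul_eq_mul, mul_one] at h3
  have h4 : (g.1.1.charpoly.roots.card : ℝ) ≤ 3 := by exact_mod_cast h2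
  linarith

theorem proper (M : ℕ) {r : ℝ} (hr : r < 1) :
    {γ : SU21 | γ ∈ Gam M ∧ act γ 0 ∈ Bl r}.Finite := by
  refine Set.Finite.of_finite_image (f := fun γ : SU21 => γ.1.1)
    (((finite_M3 ((1 - r)⁻¹ + 1)).image (mat s1)).subset ?_)
    fun a _ b _ h => Subtype.ext (Subtype.ext h)
  rintro _ ⟨g, ⟨hg, h1⟩, rfl⟩
  have h2 : 0 < (1 - r)⁻¹ := inv_pos.2 (by linarith)
  refine ⟨rep M ⟨g, hg⟩, fun i j => ⟨?_, (entry_two (rep_hO _) i j).trans (by linarith)⟩,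
    mat_rep _⟩
  rw [mat_rep]
  refine (entry_le g i j).trans ?_
  have h3 : ‖g.1.1 2 2‖ ^ 2 ≤ (1 - r)⁻¹ := by
    rw [← one_sub_nsq_zero]
    have h4 : nsq (act g 0) < r := h1
    exact inv_anti₀ (by linarith) (by linarith)
  nlinarith [sq_nonneg (‖g.1.1 2 2‖ - 1)]

theorem lat (h : CocptStmt) : Lat (Gam 17) where
  free g hg z hz h1 := by_contra fun h2 => by
    have h3 := deep le_rfl g hg h2 z hz
    rw [h1, ch2_self hz] at h3
    norm_num at h3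
  proper _ hr := proper 17 hr
  cocpt := h
  lox g hg h1 := lox_of_trace (lt_of_lt_of_le (by norm_num) (le_trace le_rfl hg h1))

end Pool.Agent.MP_54e5d7_al.Atc.Ar

end MrgPart0

-- ======== part 1: formerly Pool.Agent.MP_54e5d7_al.atc.ar.Grid
section MrgPart1

/-!
PROJECT ATC, block ARITH: the coset of vectors is a grid.
-/

set_option autoImplicit false

open scoped ComplexConjugate
open Matrix Filter Topology

namespace Pool.Agent.MP_54e5d7_al.Atc.Ar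

/-- the first embedding as an additive map -/
noncomputable def e1h : L3 →+ V3 := AddMonoidHom.mk' e1 e1_add
/-- the second embedding as an additive map -/
noncomputable def e2h : L3 →+ V3 := AddMonoidHom.mk' e2 e2_add

theorem e1_zero : e1 0 = 0 := map_zero e1h
theorem e2_zero : e2 0 = 0 := map_zero e2h

theorem n2_nonneg (v : V3) : 0 ≤ n2 v := by unfold n2; positivity

theorem n2_eq_zero {v : V3} (h : n2 v = 0) : v = 0 := by
  have h0 := sq_nonneg ‖v 0‖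
  have h1 := sq_nonneg ‖v 1‖
  have h2 := sq_nonneg ‖v 2‖
  unfold n2 at h
  ext i
  refine norm_eq_zero.1 (pow_eq_zero_iff two_ne_zero |>.1 ?_)
  fin_cases i <;> simp only [Fin.zero_eta, Fin.mk_one, Fin.reduceFinMk] <;> linarith

theorem Hp_self (v : V3) : Hp v v = (n2 v : ℂ) := by
  simp [Hp, n2, Complex.mul_conj, Complex.normSq_eq_norm_sq]

/-- the form is anisotropic -/
theorem hO_ne {v : L3} (hv : v ≠ 0) : hO v v ≠ 0 := fun h => hv (e2_inj (by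
  rw [e2_zero]
  apply n2_eq_zero
  rw [← Hp_self_re, Hp_e2, h, map_zero, Complex.zero_re]))

theorem Vec_zero {v : L3} (hv : v ∈ Vec) : v 0 ≠ 0 := by
  obtain ⟨u, rfl⟩ := hv
  intro h
  have h1 : (1 : O) + 17 * u 0 = 0 := by simpa using h
  have h2 : (1 : O) + (17 : ℤ) • u 0 = 0 := by rw [zsmul_eq_mul]; exact_mod_cast h1
  have h3 : (1 : ℤ) + ((17 : ℤ) • (u 0).re).re = 0 := congrArg (fun x : O => x.re.re) h2
  have h4 : ((17 : ℤ) • (u 0).re).re = 17 * (u 0).re.re := by simp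
  omega

theorem Vec_ne {v : L3} (hv : v ∈ Vec) : v ≠ 0 := fun h => Vec_zero hv (by rw [h]; rfl)

/-- proportionality passes from one place to the other -/
theorem cross_of {s : O →+* ℂ} (hs : Function.Injective s) {v w : L3} {c : ℂ}
    (h : ∀ i, sc i * s (w i) = c * (sc i * s (v i))) (i j : Fin 3) : w i * v j = w j * v i := by
  apply hs
  have hi : s (w i) = c * s (v i) := mul_left_cancel₀ (sc_ne i) (by linear_combination h i)
  have hj : s (w j) = c * s (v j) := mul_left_cancel₀ (sc_ne j) (by linear_combination h j)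
  rw [map_mul, map_mul, hi, hj]
  ring

theorem prop_of {s : O →+* ℂ} (hs : Function.Injective s) {v w : L3} (hv : v 0 ≠ 0)
    (h : ∀ i, w i * v 0 = w 0 * v i) (i : Fin 3) :
    sc i * s (w i) = s (w 0) / s (v 0) * (sc i * s (v i)) := by
  have h0 : s (v 0) ≠ 0 := fun h => hv (hs (h.trans (map_zero _).symm))
  have h1 := congrArg s (h i)
  rw [map_mul, map_mul] at h1
  field_simp
  linear_combination sc i * h1

theorem rigid {g : SU21} (hg : g ∈ Gam 17) {v : L3} (hv : v ∈ Vec) {c : ℂ}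
    (h : mv g (e1 v) = c • e1 v) : mv g (e1 v) = e1 v := by
  obtain ⟨Y, hY⟩ := rep_cong ⟨g, hg⟩
  have hA : rep 17 ⟨g, hg⟩ *ᵥ v = v + (17 : O) • (Y *ᵥ v) := by
    rw [hY, add_mulVec, one_mulVec, smul_mulVec]
    rfl
  have h0 := Vec_zero hv
  have hne := hO_ne (Vec_ne hv)
  have hh := rep_hO ⟨g, hg⟩ v v
  have a1 : e1 (rep 17 ⟨g, hg⟩ *ᵥ v) = c • e1 v := (mv_e1 ⟨g, hg⟩ v).symm.trans h
  obtain ⟨d, a2⟩ : ∃ d : ℂ, e2 (rep 17 ⟨g, hg⟩ *ᵥ v) = d • e2 v := by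
    refine ⟨s2 ((rep 17 ⟨g, hg⟩ *ᵥ v) 0) / s2 (v 0), funext fun i => ?_⟩
    rw [Pi.smul_apply, e2_apply, e2_apply, smul_eq_mul]
    refine prop_of s2_inj h0 (fun i => cross_of s1_inj (c := c) (fun i => ?_) i 0) i
    rw [← e1_apply, ← e1_apply, a1]
    rfl
  have nc : ‖c‖ = 1 := by
    have h1 := congrArg s1 hh
    rw [← H_e1, a1, H_smul_left, H_smul_right, H_e1, ← mul_assoc, Complex.mul_conj,
      mul_left_eq_self₀] at h1
    have h2 := h1.resolve_right fun h => hne (s1_inj (h.trans (map_zero _).symm))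
    rw [Complex.normSq_eq_norm_sq] at h2
    have h3 : ‖c‖ ^ 2 = 1 := by exact_mod_cast h2
    exact (pow_eq_one_iff_of_nonneg (norm_nonneg _) two_ne_zero).1 h3
  have nd : ‖d‖ = 1 := by
    have h1 := congrArg s2 hh
    have h4 : Hp (d • e2 v) (d • e2 v) = d * conj d * Hp (e2 v) (e2 v) := by
      simp only [Hp, Pi.smul_apply, smul_eq_mul, map_mul]
      ring
    rw [← Hp_e2, a2, h4, Hp_e2, Complex.mul_conj, mul_left_eq_self₀] at h1
    have h2 := h1.resolve_right fun h => hne (s2_inj (h.trans (map_zero _).symm))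
    rw [Complex.normSq_eq_norm_sq] at h2
    have h3 : ‖d‖ ^ 2 = 1 := by exact_mod_cast h2
    exact (pow_eq_one_iff_of_nonneg (norm_nonneg _) two_ne_zero).1 h3
  have b1 : mat s1 Y *ᵥ e1 v = ((c - 1) / 17) • e1 v := by
    rw [hA, e1_add, e1_smul, map_ofNat] at a1
    rw [mat1_mulVec]
    ext i
    have := congrFun a1 i
    simp only [Pi.add_apply, Pi.smul_apply, smul_eq_mul] at this ⊢
    linear_combination this / 17
  have b2 : mat s2 Y *ᵥ e2 v = ((d - 1) / 17) • e2 v := by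
    rw [hA, e2_add, e2_smul, map_ofNat] at a2
    rw [mat2_mulVec]
    ext i
    have := congrFun a2 i
    simp only [Pi.add_apply, Pi.smul_apply, smul_eq_mul] at this ⊢
    linear_combination this / 17
  have p1 : ∀ k : ℕ, e1 ((Y ^ k) *ᵥ v) = ((c - 1) / 17) ^ k • e1 v := fun k => by
    induction k with
    | zero => simp
    | succ k ih => rw [pow_succ', ← mulVec_mulVec, ← mat1_mulVec, ih, mulVec_smul, b1, smul_smul,
        pow_succ]
  have p2 : ∀ k : ℕ, e2 ((Y ^ k) *ᵥ v) = ((d - 1) / 17) ^ k • e2 v := fun k => by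
    induction k with
    | zero => simp
    | succ k ih => rw [pow_succ', ← mulVec_mulVec, ← mat2_mulVec, ih, mulVec_smul, b2, smul_smul,
        pow_succ]
  have sm : ∀ a : ℂ, ‖a‖ = 1 → ‖(a - 1) / 17‖ ≤ 2 / 17 := fun a ha => by
    rw [norm_div]
    have h1 := norm_sub_le a 1
    rw [ha, norm_one] at h1
    have h2 : ‖(17 : ℂ)‖ = 17 := by simp
    rw [h2]
    linarith
  have ht : Tendsto (fun k : ℕ => (‖(c - 1) / 17‖ * ‖(d - 1) / 17‖) ^ k *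
      (‖s1 (v 0)‖ * ‖s2 (v 0)‖)) atTop (𝓝 (0 * (‖s1 (v 0)‖ * ‖s2 (v 0)‖))) := by
    refine (tendsto_pow_atTop_nhds_zero_of_lt_one (by positivity) ?_).mul_const _
    nlinarith [sm c nc, sm d nd, norm_nonneg ((c - 1) / 17), norm_nonneg ((d - 1) / 17)]
  rw [zero_mul] at ht
  obtain ⟨k, hk⟩ := (ht.eventually_lt_const one_pos).exists
  have q1 : s1 (((Y ^ k) *ᵥ v) 0) = ((c - 1) / 17) ^ k * s1 (v 0) := congrFun (p1 k) 0
  have q2 : s2 (((Y ^ k) *ᵥ v) 0) = ((d - 1) / 17) ^ k * s2 (v 0) := congrFun (p2 k) 0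
  have z0 : ((Y ^ k) *ᵥ v) 0 = 0 := eq_zero_of_lt (by
    rw [q1, q2, norm_mul, norm_mul, norm_pow, norm_pow]
    refine lt_of_eq_of_lt ?_ hk
    ring)
  rw [z0, map_zero] at q1
  have c1 : c = 1 := by
    have h1 := (mul_eq_zero.1 q1.symm).resolve_right fun h =>
      h0 (s1_inj (h.trans (map_zero _).symm))
    have h2 := (pow_eq_zero_iff'.1 h1).1
    linear_combination 17 * h2
  rw [h, c1, one_smul]

theorem hO_star (v w : L3) : star (hO v w) = hO w v :=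
  s1_inj (by rw [s1_star, ← H_e1, ← H_e1, H_conj])

/-- Lagrange identity -/
theorem lagrange (a b : V3) : n2 a * n2 b - ‖Hp a b‖ ^ 2 =
    ‖a 0 * b 1 - a 1 * b 0‖ ^ 2 + ‖a 0 * b 2 - a 2 * b 0‖ ^ 2 + ‖a 1 * b 2 - a 2 * b 1‖ ^ 2 := by
  simp only [n2, Hp, Complex.sq_norm, Complex.normSq_apply, Complex.add_re, Complex.add_im,
    Complex.sub_re, Complex.sub_im, Complex.mul_re, Complex.mul_im, Complex.conj_re,
    Complex.conj_im]
  ring

theorem gap (T : ℝ) : ∃ δ : ℝ, 0 < δ ∧ ∀ v ∈ Vec, ∀ w ∈ Vec, n2 (e2 v) ≤ T → n2 (e2 w) ≤ T →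
    (∃ c : ℂ, e1 w = c • e1 v) ∨
      δ ≤ |(H (e1 v) (e1 v)).re * (H (e1 w) (e1 w)).re - ‖H (e1 v) (e1 w)‖ ^ 2| := by
  refine ⟨(T ^ 2 + 1)⁻¹, by positivity, fun v hv w _ h1 h2 => ?_⟩
  have g1 : s1 (hO v v * hO w w - hO v w * star (hO v w)) =
      (((H (e1 v) (e1 v)).re * (H (e1 w) (e1 w)).re - ‖H (e1 v) (e1 w)‖ ^ 2 : ℝ) : ℂ) := by
    rw [map_sub, map_mul, map_mul, s1_star, ← H_e1, ← H_e1, ← H_e1, Complex.mul_conj,
      Complex.normSq_eq_norm_sq, H_self, H_self, Complex.ofReal_re, Complex.ofReal_re]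
    push_cast
    ring
  have g2 : s2 (hO v v * hO w w - hO v w * star (hO v w)) =
      ((n2 (e2 v) * n2 (e2 w) - ‖Hp (e2 v) (e2 w)‖ ^ 2 : ℝ) : ℂ) := by
    rw [map_sub, map_mul, map_mul, s2_star, ← Hp_e2, ← Hp_e2, ← Hp_e2, Complex.mul_conj,
      Complex.normSq_eq_norm_sq, Hp_self, Hp_self]
    push_cast
    ring
  have hl := lagrange (e2 v) (e2 w)
  have n1 := sq_nonneg ‖e2 v 0 * e2 w 1 - e2 v 1 * e2 w 0‖
  have n2' := sq_nonneg ‖e2 v 0 * e2 w 2 - e2 v 2 * e2 w 0‖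
  have n3 := sq_nonneg ‖e2 v 1 * e2 w 2 - e2 v 2 * e2 w 1‖
  by_cases h : hO v v * hO w w - hO v w * star (hO v w) = 0
  · left
    rw [h, map_zero, eq_comm, Complex.ofReal_eq_zero] at g2
    have k1 : e2 v 0 * e2 w 1 - e2 v 1 * e2 w 0 = 0 :=
      norm_eq_zero.1 (pow_eq_zero_iff two_ne_zero |>.1 (by linarith))
    have k2 : e2 v 0 * e2 w 2 - e2 v 2 * e2 w 0 = 0 :=
      norm_eq_zero.1 (pow_eq_zero_iff two_ne_zero |>.1 (by linarith))
    have k3 : ∀ i, w i * v 0 = w 0 * v i := fun i => by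
      apply s2_inj
      rw [map_mul, map_mul]
      apply mul_left_cancel₀ (sc_ne i)
      have k4 : e2 v 0 * e2 w i - e2 v i * e2 w 0 = 0 := by
        fin_cases i
        · simp
        · exact k1
        · exact k2
      rw [e2_apply v i, e2_apply w i] at k4
      have k5 : e2 v 0 = s2 (v 0) := rfl
      have k6 : e2 w 0 = s2 (w 0) := rfl
      rw [k5, k6] at k4
      linear_combination k4
    refine ⟨s1 (w 0) / s1 (v 0), funext fun i => ?_⟩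
    rw [Pi.smul_apply, e1_apply, e1_apply, smul_eq_mul]
    exact prop_of s1_inj (Vec_zero hv) k3 i
  · right
    have h3 := one_le h
    rw [g1, g2, Complex.norm_real, Complex.norm_real, Real.norm_eq_abs, Real.norm_eq_abs,
      abs_of_nonneg (a := n2 (e2 v) * n2 (e2 w) - _) (by linarith)] at h3
    have h4 : n2 (e2 v) * n2 (e2 w) ≤ T * T :=
      mul_le_mul h1 h2 (n2_nonneg _) ((n2_nonneg _).trans h1)
    rw [inv_le_iff_one_le_mul₀ (by positivity)]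
    refine h3.trans (mul_le_mul_of_nonneg_left ?_ (abs_nonneg _))
    nlinarith [sq_nonneg ‖Hp (e2 v) (e2 w)‖]

theorem grid : Grid (Gam 17) e1h e2h Vec where
  ne := ⟨_, 0, rfl⟩
  inj := e1_inj
  fin R := (finite_L3 R).subset fun _ h => h.2
  den := by
    refine ⟨136, fun w1 w2 => ?_⟩
    have h17 : (17 : O) ≠ 0 := natCast_ne (M := 17) (by norm_num)
    choose x h1 h2 using fun i => cover_mul h17 (w1 i / sc i) (w2 i / sc i)
    have key : ∀ (a b : ℂ) (i : Fin 3), ‖a - b / sc i‖ ≤ 4 * ‖(17 : ℂ)‖ → ‖sc i * a - b‖ ≤ 136 := by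
      intro a b i h
      have h3 := sc_ne i
      have h4 : ‖(17 : ℂ)‖ = 17 := by simp
      rw [show sc i * a - b = sc i * (a - b / sc i) by field_simp, norm_mul]
      nlinarith [norm_sc i, norm_nonneg (a - b / sc i)]
    simp only [map_ofNat] at h1 h2
    refine ⟨(17 : O) • x, (pi_norm_le_iff_of_nonneg (by norm_num)).2 fun i => ?_,
      (pi_norm_le_iff_of_nonneg (by norm_num)).2 fun i => ?_, ?_⟩
    · exact (congrArg (fun t => ‖t - w1 i‖) (e1_apply _ i)).trans_le (key _ _ i (h1 i))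
    · exact (congrArg (fun t => ‖t - w2 i‖) (e2_apply _ i)).trans_le (key _ _ i (h2 i))
    · rintro _ ⟨u, rfl⟩
      exact ⟨u + x, by rw [smul_add, add_assoc]⟩
  inv g hg v hv := by
    obtain ⟨Y, hY⟩ := rep_cong ⟨g, hg⟩
    refine ⟨rep 17 ⟨g, hg⟩ *ᵥ v, ?_, (mv_e1 ⟨g, hg⟩ v).symm, ?_⟩
    · obtain ⟨u, hu⟩ := hv
      refine ⟨u + Y *ᵥ v, ?_⟩
      rw [hY, add_mulVec, one_mulVec, smul_mulVec, smul_add, ← add_assoc, ← hu]
      rfl
    · change n2 (e2 _) = n2 (e2 _)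
      rw [← Hp_self_re, ← Hp_self_re, Hp_e2, Hp_e2, rep_hO]
  rigid _ hg _ hv _ h := rigid hg hv h
  gap := gap

end Pool.Agent.MP_54e5d7_al.Atc.Ar

end MrgPart1

-- ======== part 2: formerly Pool.Agent.MP_54e5d7_al.atc.ar.CocptMink
section MrgPart2

/-!
PROJECT ATC, block LAT: Minkowski's theorem on linear forms for the lattice `O ^ 3`.
-/

set_option autoImplicit false

open scoped ComplexConjugate
open Matrix MeasureTheory

namespace Pool.Agent.MP_54e5d7_al.Atc.Ar.Co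

open Pool.Agent.MP_54e5d7_al.ATC.NT

theorem one_le {a : O} (ha : a ≠ 0) : 1 ≤ ‖s1 a‖ * ‖s2 a‖ := by
  have h1 : ∀ t : ℤ√2 →+* ℝ, ‖pl t a‖ ^ 2 = t (a.re * a.re + a.im * a.im) := fun t => by
    rw [Complex.sq_norm, Complex.normSq_apply]
    simp [pl]
  have h2 := t1_mul_t2 (a.re * a.re + a.im * a.im)
  rw [← h1, ← h1, ← mul_pow] at h2
  have h3 : 0 < ‖s1 a‖ * ‖s2 a‖ :=
    mul_pos (norm_pos_iff.2 fun h => ha (s1_inj (by rw [h, map_zero])))
      (norm_pos_iff.2 fun h => ha (s2_inj (by rw [h, map_zero])))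
  have h4 : (0 : ℝ) < ((a.re * a.re + a.im * a.im).norm : ℤ) := by
    rw [← h2]
    exact pow_pos h3 2
  have h5 : (1 : ℝ) ≤ ((a.re * a.re + a.im * a.im).norm : ℤ) := by
    have h6 : (0 : ℤ) < (a.re * a.re + a.im * a.im).norm := by exact_mod_cast h4
    exact_mod_cast h6
  rw [← h2] at h5
  exact (one_le_sq_iff₀ h3.le).1 h5

theorem fin_bdd (R : ℝ) : {a : O | ‖s1 a‖ ≤ R ∧ ‖s2 a‖ ≤ R}.Finite := by
  refine Set.Finite.of_finite_image (f := fun a : O => (a.re, a.im))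
    (((bdd_finite R).prod (bdd_finite R)).subset ?_)
    fun x _ y _ h => QuadraticAlgebra.ext (congrArg Prod.fst h) (congrArg Prod.snd h)
  rintro _ ⟨a, ⟨h1, h2⟩, rfl⟩
  exact ⟨⟨(Complex.abs_re_le_norm (s1 a)).trans h1, (Complex.abs_re_le_norm (s2 a)).trans h2⟩,
    (Complex.abs_im_le_norm (s1 a)).trans h1, (Complex.abs_im_le_norm (s2 a)).trans h2⟩

theorem cover_real (p q : ℝ) : ∃ m : ℤ√2, |p - t1 m| ≤ 2 ∧ |q - t2 m| ≤ 2 := by
  refine ⟨⟨round ((p + q) / 2), round ((p - q) / (2 * √2))⟩, ?_⟩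
  rw [t1_apply, t2_apply]
  have h1 := abs_le.1 (abs_sub_round ((p + q) / 2))
  have h2 := abs_le.1 (abs_sub_round ((p - q) / (2 * √2)))
  have h3 : (0 : ℝ) < √2 := Real.sqrt_pos.2 (by norm_num)
  have h4 : √2 ≤ (2 : ℝ) := Real.sqrt_le_iff.2 ⟨by norm_num, by norm_num⟩
  have h5 : (p - q) / (2 * √2) * √2 = (p - q) / 2 := by field_simp
  have h6 := mul_le_mul_of_nonneg_right h2.1 h3.le
  have h7 := mul_le_mul_of_nonneg_right h2.2 h3.le
  rw [sub_mul, h5] at h6 h7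
  constructor <;> rw [abs_le] <;> constructor <;> simp only <;> linarith

theorem cover (x y : ℂ) : ∃ a : O, ‖x - s1 a‖ ≤ 4 ∧ ‖y - s2 a‖ ≤ 4 := by
  obtain ⟨m, h1, h2⟩ := cover_real x.re y.re
  obtain ⟨k, h3, h4⟩ := cover_real x.im y.im
  refine ⟨⟨m, k⟩, (Complex.norm_le_abs_re_add_abs_im _).trans ?_,
    (Complex.norm_le_abs_re_add_abs_im _).trans ?_⟩
  · have h5 : (x - s1 ⟨m, k⟩).re = x.re - t1 m := rfl
    have h6 : (x - s1 ⟨m, k⟩).im = x.im - t1 k := rfl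
    rw [h5, h6]
    linarith
  · have h5 : (y - s2 ⟨m, k⟩).re = y.re - t2 m := rfl
    have h6 : (y - s2 ⟨m, k⟩).im = y.im - t2 k := rfl
    rw [h5, h6]
    linarith

/-- finitely many residues -/
theorem residues {N : O} (hN : N ≠ 0) :
    ∃ S : Set O, S.Finite ∧ ∀ a : O, ∃ r ∈ S, ∃ b, a = r + N * b := by
  refine ⟨_, fin_bdd (4 * (‖s1 N‖ + ‖s2 N‖)), fun a => ?_⟩
  have h1 : s1 N ≠ 0 := fun h => hN (s1_inj (by rw [h, map_zero]))
  have h2 : s2 N ≠ 0 := fun h => hN (s2_inj (by rw [h, map_zero]))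
  obtain ⟨b, h3, h4⟩ := cover (s1 a / s1 N) (s2 a / s2 N)
  refine ⟨a - N * b, ⟨?_, ?_⟩, b, by ring⟩
  · have h5 : s1 (a - N * b) = s1 N * (s1 a / s1 N - s1 b) := by
      rw [map_sub, map_mul]
      field_simp
    rw [h5, norm_mul]
    nlinarith [norm_nonneg (s1 N), norm_nonneg (s2 N)]
  · have h5 : s2 (a - N * b) = s2 N * (s2 a / s2 N - s2 b) := by
      rw [map_sub, map_mul]
      field_simp
    rw [h5, norm_mul]
    nlinarith [norm_nonneg (s1 N), norm_nonneg (s2 N)]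

theorem one_le_q4 : 1 ≤ q4 := Real.one_le_sqrt.2 (Real.one_le_sqrt.2 (by norm_num))

theorem q4_le : q4 ≤ 2 :=
  Real.sqrt_le_iff.2 ⟨by norm_num, Real.sqrt_le_iff.2 ⟨by norm_num, by norm_num⟩⟩

theorem norm_sc (i : Fin 3) : 1 ≤ ‖sc i‖ ∧ ‖sc i‖ ≤ 2 := by
  have h1 := one_le_q4
  have h2 := q4_le
  fin_cases i <;> simp [sc, abs_of_pos q4_pos, h1, h2]

/-- the lattice map -/
noncomputable def Φ : L3 →ₗ[ℤ] V3 × V3 :=
  (AddMonoidHom.mk' (fun v => (e1 v, e2 v)) fun v w => by rw [e1_add, e2_add]; rfl).toIntLinearMap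

theorem Φ_apply (v : L3) : Φ v = (e1 v, e2 v) := rfl

theorem one_le_Φ {v : L3} (hv : v ≠ 0) : 1 ≤ ‖Φ v‖ := by
  obtain ⟨i, hi⟩ := Function.ne_iff.1 hv
  have h1 := one_le hi
  have h2 : ‖s1 (v i)‖ ≤ ‖Φ v‖ := by
    refine le_trans ?_ ((norm_le_pi_norm (e1 v) i).trans (norm_fst_le (Φ v)))
    rw [e1_apply, norm_mul]
    exact le_mul_of_one_le_left (norm_nonneg _) (norm_sc i).1
  have h3 : ‖s2 (v i)‖ ≤ ‖Φ v‖ := by
    refine le_trans ?_ ((norm_le_pi_norm (e2 v) i).trans (norm_snd_le (Φ v)))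
    rw [e2_apply, norm_mul]
    exact le_mul_of_one_le_left (norm_nonneg _) (norm_sc i).1
  have h4 := mul_le_mul h2 h3 (norm_nonneg _) (norm_nonneg _)
  rw [← sq] at h4
  exact (one_le_sq_iff₀ (norm_nonneg _)).1 (h1.trans h4)

theorem cover_Φ (x : V3 × V3) : ∃ v : L3, ‖x - Φ v‖ ≤ 8 := by
  choose v h1 h2 using fun i => cover (x.1 i / sc i) (x.2 i / sc i)
  refine ⟨v, norm_prod_le_iff.2 ⟨(pi_norm_le_iff_of_nonneg (by norm_num)).2 fun i => ?_,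
    (pi_norm_le_iff_of_nonneg (by norm_num)).2 fun i => ?_⟩⟩
  · have h3 : (x - Φ v).1 i = sc i * (x.1 i / sc i - s1 (v i)) := by
      have h4 : (x - Φ v).1 i = x.1 i - e1 v i := rfl
      rw [h4, e1_apply]
      field_simp [sc_ne i]
    rw [h3, norm_mul]
    nlinarith [(norm_sc i).2, h1 i, norm_nonneg (x.1 i / sc i - s1 (v i))]
  · have h3 : (x - Φ v).2 i = sc i * (x.2 i / sc i - s2 (v i)) := by
      have h4 : (x - Φ v).2 i = x.2 i - e2 v i := rfl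
      rw [h4, e2_apply]
      field_simp [sc_ne i]
    rw [h3, norm_mul]
    nlinarith [(norm_sc i).2, h2 i, norm_nonneg (x.2 i / sc i - s2 (v i))]

/-- the lattice -/
noncomputable def Lt : Submodule ℤ (V3 × V3) := LinearMap.range Φ

instance : DiscreteTopology Lt := by
  refine DiscreteTopology.of_forall_le_norm one_pos ?_
  rintro ⟨_, v, rfl⟩ h
  exact one_le_Φ fun hv => h (Subtype.ext (by simp [hv]))

instance : IsZLattice ℝ Lt := by
  refine ⟨eq_top_iff.2 fun x _ => ?_⟩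
  have h1 : IsClosed (Submodule.span ℝ (Lt : Set (V3 × V3)) : Set (V3 × V3)) :=
    Submodule.closed_of_finiteDimensional _
  rw [← SetLike.mem_coe, ← h1.closure_eq, Metric.mem_closure_iff]
  intro ε hε
  obtain ⟨v, hv⟩ := cover_Φ ((9 / ε) • x)
  refine ⟨(ε / 9) • Φ v, Submodule.smul_mem _ _ (Submodule.subset_span ⟨v, rfl⟩), ?_⟩
  have h2 : x - (ε / 9) • Φ v = (ε / 9) • ((9 / ε) • x - Φ v) := by
    rw [smul_sub, smul_smul]
    congr 1
    rw [show ε / 9 * (9 / ε) = 1 by field_simp, one_smul]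
  rw [dist_eq_norm, h2, norm_smul, Real.norm_of_nonneg (by positivity)]
  nlinarith

/-- Minkowski's theorem on linear forms -/
theorem mink : ∃ δ : ℝ, 0 < δ ∧ ∀ (A : Matrix (Fin 3) (Fin 3) ℂ) (R : ℝ), 0 < R → A.det ≠ 0 →
    ‖A.det‖ ≤ δ * R ^ 3 → ∃ v : L3, v ≠ 0 ∧ ‖A *ᵥ e1 v‖ < 1 ∧ ‖e2 v‖ < R := by
  let μ : Measure (V3 × V3) := Measure.addHaar
  let b := Module.Free.chooseBasis ℤ Lt
  have hF := ZLattice.isAddFundamentalDomain b μ
  have h1 : μ (ZSpan.fundamentalDomain (b.ofZLatticeBasis ℝ)) * 2 ^ Module.finrank ℝ (V3 × V3)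
      ≠ ⊤ := ENNReal.mul_ne_top (ZSpan.fundamentalDomain_isBounded _).measure_lt_top.ne
    (by finiteness)
  have h2 : μ (Metric.ball 0 1) ≠ ⊤ := Metric.isBounded_ball.measure_lt_top.ne
  have h3 : μ (Metric.ball 0 1) ≠ 0 := (Metric.measure_ball_pos μ 0 one_pos).ne'
  obtain ⟨a, ha⟩ : ∃ a : ℝ, a = (μ (ZSpan.fundamentalDomain (b.ofZLatticeBasis ℝ)) *
    2 ^ Module.finrank ℝ (V3 × V3)).toReal := ⟨_, rfl⟩
  obtain ⟨c, hc⟩ : ∃ c : ℝ, c = (μ (Metric.ball 0 1)).toReal := ⟨_, rfl⟩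
  have ha0 : 0 ≤ a := ha ▸ ENNReal.toReal_nonneg
  have hc0 : 0 < c := hc ▸ ENNReal.toReal_pos h3 h2
  refine ⟨√(c / (a + 1)), Real.sqrt_pos.2 (by positivity), fun A R hR hA hδ => ?_⟩
  let T : (V3 × V3) →ₗ[ℂ] V3 × V3 :=
    (Matrix.toLin' A).prodMap (Matrix.toLin' (((R⁻¹ : ℝ) : ℂ) • (1 : Matrix (Fin 3) (Fin 3) ℂ)))
  have hT : ∀ x : V3 × V3, T x = (A *ᵥ x.1, ((R⁻¹ : ℝ) : ℂ) • x.2) := fun x => by
    simp [T, Matrix.toLin'_apply]
  have hd : LinearMap.det (T.restrictScalars ℝ) = (‖A.det‖ / R ^ 3) ^ 2 := by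
    rw [LinearMap.det_restrictScalars, Algebra.norm_complex_apply, ← Complex.sq_norm,
      LinearMap.det_prodMap, LinearMap.det_toLin', LinearMap.det_toLin', det_smul, det_one,
      mul_one, norm_mul, norm_pow, Complex.norm_real, Real.norm_of_nonneg (by positivity),
      Fintype.card_fin, inv_pow, div_eq_mul_inv]
  have hp : 0 < (‖A.det‖ / R ^ 3) ^ 2 := by
    have := norm_pos_iff.2 hA
    positivity
  have hle : (‖A.det‖ / R ^ 3) ^ 2 ≤ c / (a + 1) := by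
    rw [← Real.sq_sqrt (show 0 ≤ c / (a + 1) by positivity)]
    exact pow_le_pow_left₀ (by positivity) ((div_le_iff₀ (by positivity)).2 hδ) 2
  have : Countable Lt.toAddSubgroup := (countable_of_Lindelof_of_discrete : Countable Lt)
  obtain ⟨⟨_, v, rfl⟩, hx, hs⟩ := exists_ne_zero_mem_lattice_of_measure_mul_two_pow_lt_measure
    (μ := μ) (L := Lt.toAddSubgroup) (s := T.restrictScalars ℝ ⁻¹' Metric.ball 0 1) hF
    (fun x hx => by simpa using hx) ((convex_ball 0 1).linear_preimage _) (by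
      rw [Measure.addHaar_preimage_linearMap μ (hd ▸ hp.ne'), hd, ← ENNReal.ofReal_toReal h1,
        ← ENNReal.ofReal_toReal h2, ← ha, ← hc, ← ENNReal.ofReal_mul (abs_nonneg _),
        ENNReal.ofReal_lt_ofReal_iff_of_nonneg ha0, abs_of_pos (inv_pos.2 hp),
        inv_mul_eq_div, lt_div_iff₀ hp]
      rw [le_div_iff₀ (by positivity)] at hle
      nlinarith)
  have h5 : ‖T (Φ v)‖ < 1 := mem_ball_zero_iff.1 hs
  rw [hT, Φ_apply, Prod.norm_def, max_lt_iff, norm_smul, Complex.norm_real,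
    Real.norm_of_nonneg (by positivity), inv_mul_lt_iff₀ hR, mul_one] at h5
  exact ⟨v, fun hv => hx (Subtype.ext (by simp [hv])), h5⟩

end Pool.Agent.MP_54e5d7_al.Atc.Ar.Co

end MrgPart2

-- ======== part 3: formerly Pool.Agent.MP_54e5d7_al.atc.amp.Kfun
section MrgPart3

/-!
A smooth function `K` on the line with `K = log` on `[1, ∞)`, constant near `(-∞, 1/2]`, and convex
as a function of `log x`.
-/

set_option autoImplicit false

namespace Pool.Agent.MP_54e5d7_al.ATC.Amp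

open Real Set Filter Topology
open scoped ContDiff

/-- `m x = x K' x`. -/
noncomputable def mm (x : ℝ) : ℝ := smoothTransition (2 * x - 1)

/-- the derivative of `K`. -/
noncomputable def k1 (x : ℝ) : ℝ := mm x / x

/-- the regularised logarithm -/
noncomputable def KK (x : ℝ) : ℝ := ∫ y in (1 : ℝ)..x, k1 y

lemma mm_contDiff : ContDiff ℝ ∞ mm :=
  smoothTransition.contDiff.comp (by fun_prop)

lemma mm_nonneg (x : ℝ) : 0 ≤ mm x := smoothTransition.nonneg _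

lemma mm_le_one (x : ℝ) : mm x ≤ 1 := smoothTransition.le_one _

lemma mm_mono : Monotone mm := fun a b h => smoothTransition.monotone (by linarith)

lemma mm_of_le {x : ℝ} (hx : x ≤ 1 / 2) : mm x = 0 :=
  smoothTransition.zero_of_nonpos (by linarith)

lemma mm_of_ge {x : ℝ} (hx : 1 ≤ x) : mm x = 1 :=
  smoothTransition.one_of_one_le (by linarith)

lemma deriv_mm_nonneg (x : ℝ) : 0 ≤ deriv mm x := mm_mono.deriv_nonneg

lemma mm_hasDerivAt (x : ℝ) : HasDerivAt mm (deriv mm x) x :=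
  (mm_contDiff.differentiable (by simp) x).hasDerivAt

lemma k1_eventually {x : ℝ} (hx : x < 1 / 2) : k1 =ᶠ[𝓝 x] fun _ => 0 := by
  filter_upwards [Iio_mem_nhds hx] with y hy
  simp [k1, mm_of_le (le_of_lt hy)]

lemma k1_contDiff : ContDiff ℝ ∞ k1 := by
  refine contDiff_iff_contDiffAt.2 fun x => ?_
  by_cases hx : x < 1 / 2
  · exact contDiffAt_const.congr_of_eventuallyEq (k1_eventually hx)
  · exact mm_contDiff.contDiffAt.div contDiffAt_id (by intro h; apply hx; rw [show x = 0 from h]; norm_num)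

lemma KK_hasDerivAt (x : ℝ) : HasDerivAt KK (k1 x) x :=
  (k1_contDiff.continuous.integral_hasStrictDerivAt 1 x).hasDerivAt

lemma deriv_KK : deriv KK = k1 := funext fun x => (KK_hasDerivAt x).deriv

lemma KK_contDiff : ContDiff ℝ ∞ KK := by
  rw [contDiff_infty_iff_deriv, deriv_KK]
  exact ⟨fun x => (KK_hasDerivAt x).differentiableAt, k1_contDiff⟩

lemma KK_of_ge {x : ℝ} (hx : 1 ≤ x) : KK x = log x := by
  have : KK x = ∫ y in (1 : ℝ)..x, y⁻¹ := by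
    refine intervalIntegral.integral_congr fun y hy => ?_
    rw [uIcc_of_le hx] at hy
    simp [k1, mm_of_ge hy.1]
  rw [this, integral_inv_of_pos one_pos (by linarith), div_one]

lemma k1_hasDerivAt {x : ℝ} (hx : x ≠ 0) :
    HasDerivAt k1 ((deriv mm x * x - mm x) / x ^ 2) x := by
  have h := (mm_hasDerivAt x).fun_div (hasDerivAt_id' x) hx
  rw [mul_one] at h
  exact h

lemma k1_hasDerivAt_zero : HasDerivAt k1 0 0 :=
  (hasDerivAt_const (0 : ℝ) (0 : ℝ)).congr_of_eventuallyEq (k1_eventually (by norm_num))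

/-- a window on which `m'` is bounded below -/
lemma exists_window : ∃ y0 δ : ℝ, 0 < δ ∧ 0 ≤ y0 ∧ y0 ≤ 1 ∧
    ∀ y, |y - y0| ≤ δ → 1 ≤ deriv mm (y ^ 2) ∧ 1 / 4 ≤ y ^ 2 ∧ y ^ 2 ≤ 2 := by
  obtain ⟨c, hc, hc'⟩ := exists_deriv_eq_slope mm (show (1 / 2 : ℝ) < 1 by norm_num)
    mm_contDiff.continuous.continuousOn (mm_contDiff.differentiable (by simp)).differentiableOn
  rw [mm_of_ge le_rfl, mm_of_le le_rfl] at hc'
  have hcont : Continuous (deriv mm) := mm_contDiff.continuous_deriv (by simp)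
  have hs : √c ^ 2 = c := sq_sqrt (by linarith [hc.1])
  have hsq : Continuous fun y : ℝ => y ^ 2 := by fun_prop
  have h1 : ∀ᶠ y in 𝓝 √c, 1 < deriv mm (y ^ 2) :=
    (hcont.comp hsq).continuousAt.eventually
      (lt_mem_nhds (by simp only [Function.comp_apply]; rw [hs, hc']; norm_num))
  have h2 : ∀ᶠ y in 𝓝 √c, 1 / 4 < y ^ 2 :=
    hsq.continuousAt.eventually (lt_mem_nhds (by simp only [hs]; linarith [hc.1]))
  have h3 : ∀ᶠ y in 𝓝 √c, y ^ 2 < 2 :=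
    hsq.continuousAt.eventually (gt_mem_nhds (by simp only [hs]; linarith [hc.2]))
  obtain ⟨r, hr, hr'⟩ := Metric.eventually_nhds_iff.1 (h1.and (h2.and h3))
  refine ⟨√c, r / 2, by positivity, sqrt_nonneg _, sqrt_le_one.2 hc.2.le, fun y hy => ?_⟩
  have := hr' (y := y) (by rw [Real.dist_eq]; linarith)
  exact ⟨this.1.le, this.2.1.le, this.2.2.le⟩

end Pool.Agent.MP_54e5d7_al.ATC.Amp

end MrgPart3

-- ======== part 4: formerly Pool.Agent.MP_54e5d7_al.atc.amp.Line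
section MrgPart4

/-!
Second derivatives along real lines.
-/

set_option autoImplicit false

namespace Pool.Agent.MP_54e5d7_al.ATC.Amp

open Real Set Filter Topology
open scoped ContDiff

lemma second_deriv_line {E : Type} [NormedAddCommGroup E] [NormedSpace ℝ E] {Φ : E → ℝ} {z : E}
    (h : ContDiffAt ℝ 2 Φ z) (ξ : E) :
    fderiv ℝ (fderiv ℝ Φ) z ξ ξ = deriv (deriv fun t : ℝ => Φ (z + t • ξ)) 0 := by
  have hl : ∀ t : ℝ, HasDerivAt (fun t : ℝ => z + t • ξ) ξ t := fun t => by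
    simpa using ((hasDerivAt_id t).smul_const ξ).const_add z
  have hc : Tendsto (fun t : ℝ => z + t • ξ) (𝓝 0) (𝓝 z) := by
    have := (hl 0).continuousAt.tendsto
    simpa using this
  have h1 : ∀ᶠ w in 𝓝 z, DifferentiableAt ℝ Φ w := by
    filter_upwards [h.eventually (by simp)] with w hw
    exact hw.differentiableAt (by simp)
  have h2 : (deriv fun t : ℝ => Φ (z + t • ξ)) =ᶠ[𝓝 0] fun t => fderiv ℝ Φ (z + t • ξ) ξ := by
    filter_upwards [hc.eventually h1] with t ht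
    exact (ht.hasFDerivAt.comp_hasDerivAt t (hl t)).deriv
  rw [h2.deriv_eq]
  have h3 : DifferentiableAt ℝ (fderiv ℝ Φ) z :=
    (h.fderiv_right (m := 1) (by norm_num)).differentiableAt (by simp)
  have h4 : HasFDerivAt (fderiv ℝ Φ) (fderiv ℝ (fderiv ℝ Φ) z) (z + (0 : ℝ) • ξ) := by
    simpa using h3.hasFDerivAt
  have h5 := (h4.comp_hasDerivAt (0 : ℝ) (hl 0)).clm_apply (hasDerivAt_const (0 : ℝ) ξ)
  simpa using h5.deriv.symm

lemma second_deriv_quad (a0 a1 a2 r0 r1 r2 c : ℝ) (hr : 0 < r0) (hc : c ≠ 0) :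
    deriv (deriv fun t : ℝ => log (r0 + r1 * t + r2 * t ^ 2) +
      KK ((a0 + a1 * t + a2 * t ^ 2) / (c * (r0 + r1 * t + r2 * t ^ 2)))) 0 =
    (1 - mm (a0 / (c * r0))) * ((2 * r2 * r0 - r1 ^ 2) / r0 ^ 2) +
      mm (a0 / (c * r0)) * ((2 * a2 * a0 - a1 ^ 2) / a0 ^ 2) +
      a0 / (c * r0) * deriv mm (a0 / (c * r0)) * (a1 / a0 - r1 / r0) ^ 2 := by
  have hq : ∀ (b0 b1 b2 t : ℝ), HasDerivAt (fun t : ℝ => b0 + b1 * t + b2 * t ^ 2)
      (b1 + 2 * b2 * t) t := fun b0 b1 b2 t => by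
    have := (((hasDerivAt_id' t).const_mul b1).const_add b0).fun_add
      (((hasDerivAt_id' t).fun_pow 2).const_mul b2)
    refine this.congr_deriv ?_
    push_cast
    ring
  have hlin : ∀ (b1 b2 : ℝ), HasDerivAt (fun t : ℝ => b1 + 2 * b2 * t) (2 * b2) 0 := fun b1 b2 => by
    simpa using ((hasDerivAt_id' (0 : ℝ)).const_mul (2 * b2)).const_add b1
  have hpos : ∀ᶠ t in 𝓝 (0 : ℝ), 0 < r0 + r1 * t + r2 * t ^ 2 :=
    (hq r0 r1 r2 0).continuousAt.eventually (lt_mem_nhds (by simpa using hr))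
  have hx : ∀ t, 0 < r0 + r1 * t + r2 * t ^ 2 → HasDerivAt
      (fun t : ℝ => (a0 + a1 * t + a2 * t ^ 2) / (c * (r0 + r1 * t + r2 * t ^ 2)))
      (((a1 + 2 * a2 * t) * (c * (r0 + r1 * t + r2 * t ^ 2)) -
        (a0 + a1 * t + a2 * t ^ 2) * (c * (r1 + 2 * r2 * t))) /
        (c * (r0 + r1 * t + r2 * t ^ 2)) ^ 2) t := fun t ht =>
    (hq a0 a1 a2 t).fun_div ((hq r0 r1 r2 t).const_mul c) (mul_ne_zero hc ht.ne')
  have h1 : (deriv fun t : ℝ => log (r0 + r1 * t + r2 * t ^ 2) +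
      KK ((a0 + a1 * t + a2 * t ^ 2) / (c * (r0 + r1 * t + r2 * t ^ 2)))) =ᶠ[𝓝 0]
      fun t => (r1 + 2 * r2 * t) / (r0 + r1 * t + r2 * t ^ 2) +
        k1 ((a0 + a1 * t + a2 * t ^ 2) / (c * (r0 + r1 * t + r2 * t ^ 2))) *
        (((a1 + 2 * a2 * t) * (c * (r0 + r1 * t + r2 * t ^ 2)) -
        (a0 + a1 * t + a2 * t ^ 2) * (c * (r1 + 2 * r2 * t))) /
        (c * (r0 + r1 * t + r2 * t ^ 2)) ^ 2) := by
    filter_upwards [hpos] with t ht
    exact (((hq r0 r1 r2 t).log ht.ne').fun_add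
      ((KK_hasDerivAt _).comp t (hx t ht))).deriv
  rw [h1.deriv_eq]
  have hr0 : 0 < r0 + r1 * 0 + r2 * (0 : ℝ) ^ 2 := by simpa using hr
  have hA := (hlin r1 r2).fun_div (hq r0 r1 r2 0) hr0.ne'
  have hB := (((hlin a1 a2).fun_mul ((hq r0 r1 r2 0).const_mul c)).fun_sub
    ((hq a0 a1 a2 0).fun_mul ((hlin r1 r2).const_mul c))).fun_div
      (((hq r0 r1 r2 0).const_mul c).fun_pow 2) (pow_ne_zero 2 (mul_ne_zero hc hr0.ne'))
  by_cases ha : a0 = 0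
  · have hk : HasDerivAt k1 0 ((a0 + a1 * 0 + a2 * (0 : ℝ) ^ 2) /
        (c * (r0 + r1 * 0 + r2 * (0 : ℝ) ^ 2))) := by
      simpa [ha] using k1_hasDerivAt_zero
    have hC := (hk.comp (0 : ℝ) (hx 0 hr0)).fun_mul hB
    refine (hA.fun_add hC).deriv.trans ?_
    have : mm 0 = 0 := mm_of_le (by norm_num)
    simp [ha, k1, this]
    ring
  · have hx0 : (a0 + a1 * 0 + a2 * (0 : ℝ) ^ 2) / (c * (r0 + r1 * 0 + r2 * (0 : ℝ) ^ 2)) ≠ 0 := by
      simp [ha, hc, hr.ne']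
    have hC := ((k1_hasDerivAt hx0).comp (0 : ℝ) (hx 0 hr0)).fun_mul hB
    refine (hA.fun_add hC).deriv.trans ?_
    simp only [k1, Function.comp_apply, mul_zero, add_zero, ne_eq, OfNat.ofNat_ne_zero,
      not_false_eq_true, zero_pow]
    field_simp
    ring

end Pool.Agent.MP_54e5d7_al.ATC.Amp

end MrgPart4

-- ======== part 5: formerly Pool.Agent.MP_54e5d7_al.atc.amp.Est
section MrgPart5

/-!
Positivity of the sum of the Levi forms of the regularised Green potentials.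
-/

set_option autoImplicit false

namespace Pool.Agent.MP_54e5d7_al.ATC.Amp

open Real
open scoped ComplexConjugate

/-- `1 - |z|^2` -/
noncomputable def rho (z1 z2 : ℂ) : ℝ := 1 - ‖z1‖ ^ 2 - ‖z2‖ ^ 2

/-- the linear part of the equation of the line orthogonal to `v` -/
def lam (ξ1 ξ2 : ℂ) (v : Fin 3 → ℂ) : ℂ := ξ1 * conj (v 0) + ξ2 * conj (v 1)

/-- the affine equation of the line orthogonal to `v` -/
def ell (z1 z2 : ℂ) (v : Fin 3 → ℂ) : ℂ := z1 * conj (v 0) + z2 * conj (v 1) - conj (v 2)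

/-- the hermitian form of signature `(2, 1)` -/
noncomputable def nrm (v : Fin 3 → ℂ) : ℝ := ‖v 0‖ ^ 2 + ‖v 1‖ ^ 2 - ‖v 2‖ ^ 2

/-- the definite form -/
noncomputable def nrm2 (v : Fin 3 → ℂ) : ℝ := ‖v 0‖ ^ 2 + ‖v 1‖ ^ 2 + ‖v 2‖ ^ 2

/-- the normalised square of the equation -/
noncomputable def xx (c : ℝ) (z1 z2 : ℂ) (v : Fin 3 → ℂ) : ℝ :=
  ‖ell z1 z2 v‖ ^ 2 / (c * rho z1 z2)

/-- the Levi form of the potential of `v` -/
noncomputable def lev (c : ℝ) (z1 z2 ξ1 ξ2 : ℂ) (v : Fin 3 → ℂ) : ℝ :=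
  -((1 - mm (xx c z1 z2 v)) * (((‖ξ1‖ ^ 2 + ‖ξ2‖ ^ 2) * rho z1 z2 +
      ‖ξ1 * conj z1 + ξ2 * conj z2‖ ^ 2) / rho z1 z2 ^ 2)) +
    xx c z1 z2 v * deriv mm (xx c z1 z2 v) *
      ‖lam ξ1 ξ2 v / ell z1 z2 v + (ξ1 * conj z1 + ξ2 * conj z2) / (rho z1 z2 : ℂ)‖ ^ 2

lemma cs (a1 a2 b1 b2 : ℂ) : ‖a1 * conj b1 + a2 * conj b2‖ ^ 2 ≤
    (‖a1‖ ^ 2 + ‖a2‖ ^ 2) * (‖b1‖ ^ 2 + ‖b2‖ ^ 2) := by
  have h : ‖a1 * conj b1 + a2 * conj b2‖ ≤ ‖a1‖ * ‖b1‖ + ‖a2‖ * ‖b2‖ := by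
    simpa using norm_add_le (a1 * conj b1) (a2 * conj b2)
  have h2 := pow_le_pow_left₀ (norm_nonneg _) h 2
  nlinarith [sq_nonneg (‖a1‖ * ‖b2‖ - ‖a2‖ * ‖b1‖)]

lemma rho_le_one (z1 z2 : ℂ) : rho z1 z2 ≤ 1 := by
  unfold rho
  nlinarith [sq_nonneg ‖z1‖, sq_nonneg ‖z2‖]

lemma xx_nonneg {c : ℝ} (hc : 0 ≤ c) {z1 z2 : ℂ} (hz : 0 ≤ rho z1 z2) (v : Fin 3 → ℂ) :
    0 ≤ xx c z1 z2 v := div_nonneg (sq_nonneg _) (mul_nonneg hc hz)

lemma omega_le {r : ℝ} (hr : 0 < r) {z1 z2 ξ1 ξ2 : ℂ} (hz : r ≤ rho z1 z2)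
    (hξ : ‖ξ1‖ ^ 2 + ‖ξ2‖ ^ 2 = 1) :
    ((‖ξ1‖ ^ 2 + ‖ξ2‖ ^ 2) * rho z1 z2 + ‖ξ1 * conj z1 + ξ2 * conj z2‖ ^ 2) / rho z1 z2 ^ 2 ≤
      1 / r ^ 2 := by
  have h := cs ξ1 ξ2 z1 z2
  rw [hξ] at h ⊢
  have h2 : 1 * rho z1 z2 + ‖ξ1 * conj z1 + ξ2 * conj z2‖ ^ 2 ≤ 1 := by
    unfold rho
    linarith
  gcongr

lemma lev_ge {c r : ℝ} (hc : 0 ≤ c) (hr : 0 < r) {z1 z2 ξ1 ξ2 : ℂ} (hz : r ≤ rho z1 z2)
    (hξ : ‖ξ1‖ ^ 2 + ‖ξ2‖ ^ 2 = 1) (v : Fin 3 → ℂ) :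
    -(1 / r ^ 2) + xx c z1 z2 v * deriv mm (xx c z1 z2 v) *
      ‖lam ξ1 ξ2 v / ell z1 z2 v + (ξ1 * conj z1 + ξ2 * conj z2) / (rho z1 z2 : ℂ)‖ ^ 2 ≤
      lev c z1 z2 ξ1 ξ2 v := by
  have h := omega_le hr hz hξ
  have hz' : 0 < rho z1 z2 := hr.trans_le hz
  have h0 : 0 ≤ ((‖ξ1‖ ^ 2 + ‖ξ2‖ ^ 2) * rho z1 z2 + ‖ξ1 * conj z1 + ξ2 * conj z2‖ ^ 2) /
      rho z1 z2 ^ 2 := by positivity
  unfold lev
  nlinarith [mm_nonneg (xx c z1 z2 v)]

lemma pos_term_nonneg {c : ℝ} (hc : 0 ≤ c) {z1 z2 : ℂ} (hz : 0 ≤ rho z1 z2) (v : Fin 3 → ℂ)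
    (w : ℂ) : 0 ≤ xx c z1 z2 v * deriv mm (xx c z1 z2 v) * ‖w‖ ^ 2 :=
  mul_nonneg (mul_nonneg (xx_nonneg hc hz v) (deriv_mm_nonneg _)) (sq_nonneg _)

lemma lev_nonneg {c : ℝ} (hc : 0 ≤ c) {z1 z2 : ℂ} (hz : 0 ≤ rho z1 z2) (ξ1 ξ2 : ℂ)
    {v : Fin 3 → ℂ} (hv : 1 ≤ xx c z1 z2 v) : 0 ≤ lev c z1 z2 ξ1 ξ2 v := by
  unfold lev
  rw [mm_of_ge hv, sub_self, zero_mul, neg_zero, zero_add]
  exact pos_term_nonneg hc hz v _

lemma lev_good {s r : ℝ} (hs : 0 < s) (hr : 0 < r) {z1 z2 ξ1 ξ2 : ℂ} (hz : r ≤ rho z1 z2)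
    (hξ : ‖ξ1‖ ^ 2 + ‖ξ2‖ ^ 2 = 1) {v : Fin 3 → ℂ}
    (h1 : 1 ≤ deriv mm (xx (s ^ 2) z1 z2 v)) (h2 : 1 / 4 ≤ xx (s ^ 2) z1 z2 v)
    (h3 : xx (s ^ 2) z1 z2 v ≤ 2) (h4 : 1 / 2 ≤ ‖lam ξ1 ξ2 v‖) :
    1 / (64 * s ^ 2) - 2 / r ^ 2 ≤ lev (s ^ 2) z1 z2 ξ1 ξ2 v := by
  refine le_trans ?_ (lev_ge (sq_nonneg s) hr hz hξ v)
  have hz' : 0 < rho z1 z2 := hr.trans_le hz
  set a := lam ξ1 ξ2 v / ell z1 z2 v with ha
  set b := (ξ1 * conj z1 + ξ2 * conj z2) / (rho z1 z2 : ℂ) with hb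
  have hb2 : ‖b‖ ^ 2 ≤ 1 / r ^ 2 := by
    refine le_trans ?_ (omega_le hr hz hξ)
    rw [hb, norm_div, div_pow, Complex.norm_real, Real.norm_eq_abs, sq_abs]
    gcongr
    have : 0 ≤ (‖ξ1‖ ^ 2 + ‖ξ2‖ ^ 2) * rho z1 z2 := by positivity
    linarith
  have hl : ‖ell z1 z2 v‖ ^ 2 ≤ 2 * s ^ 2 := by
    have := h3
    unfold xx at this
    rw [div_le_iff₀ (by positivity)] at this
    nlinarith [rho_le_one z1 z2, sq_nonneg s]
  have hl0 : 0 < ‖ell z1 z2 v‖ ^ 2 := by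
    have := h2
    unfold xx at this
    rw [le_div_iff₀ (by positivity)] at this
    have : 0 < 1 / 4 * (s ^ 2 * rho z1 z2) := by positivity
    linarith
  have ha2 : 1 / (8 * s ^ 2) ≤ ‖a‖ ^ 2 := by
    rw [ha, norm_div, div_pow, div_le_div_iff₀ (by positivity) hl0]
    have := pow_le_pow_left₀ (by norm_num) h4 2
    nlinarith [sq_nonneg s]
  have hab : ‖a‖ ^ 2 / 2 - ‖b‖ ^ 2 ≤ ‖a + b‖ ^ 2 := by
    have h : ‖a‖ ≤ ‖a + b‖ + ‖b‖ := by simpa using norm_sub_le (a + b) b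
    have h' := pow_le_pow_left₀ (norm_nonneg _) h 2
    nlinarith [sq_nonneg (‖a + b‖ - ‖b‖)]
  have hx : 1 / 4 ≤ xx (s ^ 2) z1 z2 v * deriv mm (xx (s ^ 2) z1 z2 v) := by nlinarith
  have h5 := mul_le_mul_of_nonneg_right hx (sq_nonneg ‖a + b‖)
  have e1 : 1 / (64 * s ^ 2) = 1 / (8 * s ^ 2) / 8 := by field_simp; norm_num
  have e2 : 2 / r ^ 2 = 2 * (1 / r ^ 2) := by ring
  have h6 : 0 ≤ 1 / r ^ 2 := by positivity
  rw [e1, e2]
  linarith

/-- vectors of `V` whose tube contains `z` are bounded -/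
lemma bad_bound {r : ℝ} (hr : 0 < r) {z1 z2 : ℂ} (hz : r ≤ rho z1 z2) {v : Fin 3 → ℂ}
    (hn : nrm v ≤ 2) (hl : ‖ell z1 z2 v‖ ≤ 2) : ‖v‖ ≤ 6 / r ^ 2 := by
  have hρ := rho_le_one z1 z2
  have hr1 : r ≤ 1 := hz.trans hρ
  set p := ‖z1 * conj (v 0) + z2 * conj (v 1)‖ with hp
  set q := ‖v 0‖ ^ 2 + ‖v 1‖ ^ 2 with hq
  have hq0 : 0 ≤ q := by positivity
  have h1 : p ^ 2 ≤ (1 - r) * q := by
    refine (cs z1 z2 (v 0) (v 1)).trans ?_
    unfold rho at hz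
    gcongr
    linarith
  have h2 : ‖v 2‖ ≤ p + 2 := by
    have e : conj (v 2) = (z1 * conj (v 0) + z2 * conj (v 1)) - ell z1 z2 v := by
      unfold ell; ring
    have := norm_sub_le (z1 * conj (v 0) + z2 * conj (v 1)) (ell z1 z2 v)
    rw [← e, Complex.norm_conj] at this
    linarith
  have h3 : ‖v 2‖ ^ 2 ≤ (p + 2) ^ 2 := pow_le_pow_left₀ (norm_nonneg _) h2 2
  have hp0 : 0 ≤ p := norm_nonneg _
  have h4 : r * (p + 2) ^ 2 ≤ r * (1 + r) * p ^ 2 + 8 := by nlinarith [sq_nonneg (r * p - 2)]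
  have h5 : q ≤ 2 + (p + 2) ^ 2 := by
    unfold nrm at hn
    linarith
  have h6 : r ^ 3 * q ≤ 10 := by
    have h7 : r * (1 + r) * p ^ 2 ≤ r * (1 + r) * ((1 - r) * q) := by gcongr
    have h8 : r * q ≤ r * (2 + (p + 2) ^ 2) := by gcongr
    nlinarith
  have hr2 : 0 < r ^ 2 := by positivity
  have h9 : ∀ y : ℝ, 0 ≤ y → y ^ 2 ≤ q → y ≤ 4 / r ^ 2 := fun y hy h => by
    rw [le_div_iff₀ hr2]
    refine (pow_le_pow_iff_left₀ (by positivity) (by norm_num) two_ne_zero).1 ?_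
    have h10 : r ^ 3 * y ^ 2 ≤ 10 := (mul_le_mul_of_nonneg_left h (by positivity)).trans h6
    have h11 : 0 ≤ r ^ 3 * y ^ 2 := by positivity
    nlinarith
  have h12 : (2 : ℝ) ≤ 2 / r ^ 2 := by
    rw [le_div_iff₀ hr2]
    nlinarith
  have e : 6 / r ^ 2 = 4 / r ^ 2 + 2 / r ^ 2 := by ring
  refine (pi_norm_le_iff_of_nonneg (by positivity)).2 fun i => ?_
  fin_cases i
  · have := h9 ‖v 0‖ (norm_nonneg _) (by rw [hq]; nlinarith [sq_nonneg ‖v 1‖])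
    simp only [Fin.zero_eta]
    linarith
  · have := h9 ‖v 1‖ (norm_nonneg _) (by rw [hq]; nlinarith [sq_nonneg ‖v 0‖])
    simp only [Fin.mk_one]
    linarith
  · have := h9 p hp0 (by nlinarith)
    simp only [Fin.reduceFinMk]
    linarith

/-- vectors close to the centre are good -/
lemma good_of_close {r s η y : ℝ} (hr : 0 < r) (hs : 0 ≤ s) (hs' : s ≤ r / 16) (hη : η ≤ r / 16)
    (hy : 0 ≤ y) (hy' : y ≤ s) {z1 z2 ξ1 ξ2 : ℂ} (hz : r ≤ rho z1 z2)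
    (hξ : ‖ξ1‖ ^ 2 + ‖ξ2‖ ^ 2 = 1) {v : Fin 3 → ℂ}
    (hv : ‖v - ![ξ1, ξ2, conj (z1 * conj ξ1 + z2 * conj ξ2 - y)]‖ ≤ η) :
    0 < nrm v ∧ nrm v ≤ 2 ∧ 1 / 2 ≤ ‖lam ξ1 ξ2 v‖ := by
  have hρ := rho_le_one z1 z2
  have hr1 : r ≤ 1 := hz.trans hρ
  have hη0 : 0 ≤ η := (norm_nonneg _).trans hv
  have h0 : ‖v 0 - ξ1‖ ≤ η := by simpa using (norm_le_pi_norm _ 0).trans hv
  have h1 : ‖v 1 - ξ2‖ ≤ η := by simpa using (norm_le_pi_norm _ 1).trans hv
  have h2 : ‖v 2 - conj (z1 * conj ξ1 + z2 * conj ξ2 - y)‖ ≤ η := by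
    simpa using (norm_le_pi_norm _ 2).trans hv
  have hx1 : ‖ξ1‖ ≤ 1 := by nlinarith [sq_nonneg ‖ξ2‖, norm_nonneg ξ1]
  have hx2 : ‖ξ2‖ ≤ 1 := by nlinarith [sq_nonneg ‖ξ1‖, norm_nonneg ξ2]
  have a0 := abs_le.1 ((abs_norm_sub_norm_le (v 0) ξ1).trans h0)
  have a1 := abs_le.1 ((abs_norm_sub_norm_le (v 1) ξ2).trans h1)
  have a2 := abs_le.1 ((abs_norm_sub_norm_le (v 2) _).trans h2)
  set p := ‖z1 * conj ξ1 + z2 * conj ξ2‖ with hp
  have hp0 : 0 ≤ p := norm_nonneg _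
  have hp2 : p ^ 2 ≤ 1 - r := by
    have := cs z1 z2 ξ1 ξ2
    rw [hξ] at this
    unfold rho at hz
    linarith
  have hp1 : p ≤ 1 := by nlinarith
  have a3 : ‖conj (z1 * conj ξ1 + z2 * conj ξ2 - y)‖ ≤ p + s := by
    rw [Complex.norm_conj]
    refine (norm_sub_le _ _).trans ?_
    rw [Complex.norm_real, Real.norm_eq_abs, abs_of_nonneg hy]
    linarith
  have b2 : ‖v 2‖ ^ 2 ≤ (p + (s + η)) ^ 2 :=
    pow_le_pow_left₀ (norm_nonneg _) (by linarith [a2.2]) 2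
  have bb : ∀ a b : ℝ, 0 ≤ b → b ≤ 1 → -η ≤ a - b → b ^ 2 - 2 * η ≤ a ^ 2 := fun a b k0 k1 k2 => by
    have k3 : b * -η ≤ b * (a - b) := mul_le_mul_of_nonneg_left k2 k0
    have k4 : b * η ≤ η := mul_le_of_le_one_left hη0 k1
    linarith [sq_nonneg (a - b)]
  have b0 := bb _ _ (norm_nonneg ξ1) hx1 a0.1
  have b1 := bb _ _ (norm_nonneg ξ2) hx2 a1.1
  have c0 : ‖v 0‖ ^ 2 ≤ (‖ξ1‖ + η) ^ 2 := pow_le_pow_left₀ (norm_nonneg _) (by linarith [a0.2]) 2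
  have c1 : ‖v 1‖ ^ 2 ≤ (‖ξ2‖ + η) ^ 2 := pow_le_pow_left₀ (norm_nonneg _) (by linarith [a1.2]) 2
  refine ⟨?_, ?_, ?_⟩
  · unfold nrm
    have k1 : (s + η) ^ 2 ≤ s + η := by nlinarith
    have k2 : p * (s + η) ≤ s + η := mul_le_of_le_one_left (by linarith) hp1
    have k3 : (p + (s + η)) ^ 2 = p ^ 2 + 2 * (p * (s + η)) + (s + η) ^ 2 := by ring
    linarith
  · unfold nrm
    have k1 : η ^ 2 ≤ η := by nlinarith
    have k2 : ‖ξ1‖ * η ≤ η := mul_le_of_le_one_left hη0 hx1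
    have k3 : ‖ξ2‖ * η ≤ η := mul_le_of_le_one_left hη0 hx2
    have k4 : (‖ξ1‖ + η) ^ 2 = ‖ξ1‖ ^ 2 + 2 * (‖ξ1‖ * η) + η ^ 2 := by ring
    have k5 : (‖ξ2‖ + η) ^ 2 = ‖ξ2‖ ^ 2 + 2 * (‖ξ2‖ * η) + η ^ 2 := by ring
    linarith [sq_nonneg ‖v 2‖]
  · have e : lam ξ1 ξ2 v = 1 + (ξ1 * conj (v 0 - ξ1) + ξ2 * conj (v 1 - ξ2)) := by
      have : (1 : ℂ) = ξ1 * conj ξ1 + ξ2 * conj ξ2 := by
        rw [Complex.mul_conj', Complex.mul_conj']
        exact_mod_cast hξ.symm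
      unfold lam
      rw [map_sub, map_sub]
      linear_combination -this
    have d : ‖ξ1 * conj (v 0 - ξ1) + ξ2 * conj (v 1 - ξ2)‖ ≤ 2 * η := by
      refine (norm_add_le _ _).trans ?_
      rw [norm_mul, norm_mul, Complex.norm_conj, Complex.norm_conj]
      linarith [mul_le_of_le_one_left (norm_nonneg (v 0 - ξ1)) hx1,
        mul_le_of_le_one_left (norm_nonneg (v 1 - ξ2)) hx2]
    have d2 := norm_sub_le (lam ξ1 ξ2 v) (ξ1 * conj (v 0 - ξ1) + ξ2 * conj (v 1 - ξ2))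
    rw [show lam ξ1 ξ2 v - (ξ1 * conj (v 0 - ξ1) + ξ2 * conj (v 1 - ξ2)) = 1 by rw [e]; ring,
      norm_one] at d2
    linarith

end Pool.Agent.MP_54e5d7_al.ATC.Amp

end MrgPart5

-- ======== part 6: formerly Pool.Agent.MP_54e5d7_al.atc.amp.Pos
section MrgPart6

/-!
The sum of the Levi forms is as positive as we like when the grid is fine.
-/

set_option autoImplicit false

namespace Pool.Agent.MP_54e5d7_al.ATC.Amp

open Real
open scoped ComplexConjugate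

/-- `ell` is additive in the vector -/
def ellHom (z1 z2 : ℂ) : (Fin 3 → ℂ) →+ ℂ where
  toFun := ell z1 z2
  map_zero' := by simp [ell]
  map_add' a b := by
    simp only [ell, Pi.add_apply, map_add]
    ring

lemma norm_ell_le {z1 z2 : ℂ} (hz : 0 ≤ rho z1 z2) (v : Fin 3 → ℂ) :
    ‖ell z1 z2 v‖ ≤ 3 * ‖v‖ := by
  unfold rho at hz
  have h1 : ‖z1‖ ≤ 1 := by nlinarith [sq_nonneg ‖z2‖, norm_nonneg z1]
  have h2 : ‖z2‖ ≤ 1 := by nlinarith [sq_nonneg ‖z1‖, norm_nonneg z2]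
  unfold ell
  refine (norm_sub_le _ _).trans ((add_le_add_left (norm_add_le _ _) _).trans ?_)
  rw [norm_mul, norm_mul, Complex.norm_conj, Complex.norm_conj, Complex.norm_conj]
  linarith [mul_le_of_le_one_left (norm_nonneg (v 0)) h1,
    mul_le_of_le_one_left (norm_nonneg (v 1)) h2, norm_le_pi_norm v 0, norm_le_pi_norm v 1,
    norm_le_pi_norm v 2]

lemma norm_le_of_nrm2 {v : Fin 3 → ℂ} (h : nrm2 v ≤ 1) : ‖v‖ ≤ 1 := by
  unfold nrm2 at h
  refine (pi_norm_le_iff_of_nonneg zero_le_one).2 fun i => ?_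
  have h0 := sq_nonneg ‖v 0‖
  have h1 := sq_nonneg ‖v 1‖
  have h2 := sq_nonneg ‖v 2‖
  refine (sq_le_one_iff₀ (norm_nonneg _)).1 ?_
  fin_cases i
  · simp only [Fin.zero_eta]; linarith
  · simp only [Fin.mk_one]; linarith
  · simp only [Fin.reduceFinMk]; linarith

lemma nrm2_le {v : Fin 3 → ℂ} (h : ‖v‖ ≤ 1 / 2) : nrm2 v ≤ 1 := by
  have k : ∀ i, ‖v i‖ ^ 2 ≤ (1 / 2) ^ 2 := fun i =>
    pow_le_pow_left₀ (norm_nonneg _) ((norm_le_pi_norm v i).trans h) 2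
  unfold nrm2
  linarith [k 0, k 1, k 2]

theorem sum_lev_ge (r c : ℝ) (hr : 0 < r) : ∃ s r0 : ℝ, 0 < s ∧ s ≤ 1 ∧ 0 < r0 ∧
    ∀ (Λ : Type) [AddCommGroup Λ] (ι1 ι2 : Λ →+ (Fin 3 → ℂ)) (X : Set Λ), X.Nonempty →
      (∀ w1 w2, ∃ u, ‖ι1 u - w1‖ ≤ r0 ∧ ‖ι2 u - w2‖ ≤ r0 ∧ ∀ x ∈ X, x + u ∈ X) →
      ∀ z1 z2 ξ1 ξ2 : ℂ, r ≤ rho z1 z2 → ‖ξ1‖ ^ 2 + ‖ξ2‖ ^ 2 = 1 → ∀ S : Finset Λ,
        (∀ v ∈ S, v ∈ X ∧ nrm (ι1 v) ≤ 2 ∧ nrm2 (ι2 v) ≤ 1) →
        (∀ v ∈ X, 0 < nrm (ι1 v) → nrm (ι1 v) ≤ 2 → nrm2 (ι2 v) ≤ 1 →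
          xx (s ^ 2) z1 z2 (ι1 v) ≤ 2 → v ∈ S) →
        c ≤ ∑ v ∈ S, lev (s ^ 2) z1 z2 ξ1 ξ2 (ι1 v) := by
  classical
  obtain ⟨y0, δ, hδ, hy0, hy1, hwin⟩ := exists_window
  set η := min δ (r / 16) with hη
  have hη0 : 0 < η := lt_min hδ (by positivity)
  obtain ⟨M, hM⟩ := count_le (ℂ × (Fin 3 → ℂ) × (Fin 3 → ℂ)) (6 / r ^ 2) η hη0
  set Q := |c| + 2 / r ^ 2 + M / r ^ 2 + 1 with hQ
  have hQ1 : 1 ≤ Q := by
    have : 0 ≤ |c| + 2 / r ^ 2 + M / r ^ 2 := by positivity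
    linarith
  set s := min (r / 16) (1 / (8 * Q)) with hs
  have hs0 : 0 < s := lt_min (by positivity) (by positivity)
  have hsQ : Q ≤ 1 / (64 * s ^ 2) := by
    rw [le_div_iff₀ (by positivity)]
    have h1 : s ≤ 1 / (8 * Q) := min_le_right _ _
    rw [le_div_iff₀ (by positivity)] at h1
    have h2 : (s * (8 * Q)) ^ 2 ≤ 1 := by
      have := pow_le_pow_left₀ (by positivity) h1 2
      simpa using this
    have h3 : 0 ≤ 64 * s ^ 2 * Q := by positivity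
    nlinarith
  refine ⟨s, η * (s * r) / 6, hs0, (min_le_right _ _).trans
    ((div_le_one (by positivity)).2 (by linarith)), by positivity, ?_⟩
  intro Λ _ ι1 ι2 X hX hden z1 z2 ξ1 ξ2 hz hξ S hS1 hS2
  have hρ := rho_le_one z1 z2
  have hr1 : r ≤ 1 := hz.trans hρ
  have hρ0 : 0 < rho z1 z2 := hr.trans_le hz
  have hs1 : s ≤ r / 16 := min_le_left _ _
  have hη1 : η ≤ r / 16 := min_le_right _ _
  set σ := s * √(rho z1 z2) with hσ
  have hσ2 : σ ^ 2 = s ^ 2 * rho z1 z2 := by rw [hσ, mul_pow, sq_sqrt hρ0.le]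
  have hσr : s * r ≤ σ := by
    refine mul_le_mul_of_nonneg_left (le_sqrt_of_sq_le ?_) hs0.le
    nlinarith
  have hσ0 : 0 < σ := lt_of_lt_of_le (by positivity) hσr
  have hσs : σ ≤ s := mul_le_of_le_one_right hs0.le (sqrt_le_one.2 hρ)
  have hxx : ∀ v, xx (s ^ 2) z1 z2 v = ‖(σ : ℂ)⁻¹ * ell z1 z2 v‖ ^ 2 := fun v => by
    rw [xx, ← hσ2, norm_mul, norm_inv, Complex.norm_real, Real.norm_eq_abs, abs_of_pos hσ0]
    field_simp
  let L : Λ →+ ℂ × (Fin 3 → ℂ) × (Fin 3 → ℂ) :=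
    (((AddMonoidHom.mulLeft (σ : ℂ)⁻¹).comp (ellHom z1 z2)).comp ι1).prod (ι1.prod ι2)
  have hL : ∀ v, L v = ((σ : ℂ)⁻¹ * ell z1 z2 (ι1 v), ι1 v, ι2 v) := fun v => rfl
  set cv : Fin 3 → ℂ := ![ξ1, ξ2, conj (z1 * conj ξ1 + z2 * conj ξ2 - ((y0 * σ : ℝ) : ℂ))]
    with hcv
  have hcv2 : (σ : ℂ)⁻¹ * ell z1 z2 cv = y0 := by
    have : (σ : ℂ) ≠ 0 := by exact_mod_cast hσ0.ne'
    simp only [ell, hcv, Matrix.cons_val_zero, Matrix.cons_val_one, Matrix.cons_val,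
      Complex.conj_conj]
    push_cast
    field_simp
    ring
  set good := S.filter fun v => 1 ≤ deriv mm (xx (s ^ 2) z1 z2 (ι1 v)) ∧
    1 / 4 ≤ xx (s ^ 2) z1 z2 (ι1 v) ∧ xx (s ^ 2) z1 z2 (ι1 v) ≤ 2 ∧ 1 / 2 ≤ ‖lam ξ1 ξ2 (ι1 v)‖
    with hgood
  set bad := S.filter fun v => xx (s ^ 2) z1 z2 (ι1 v) < 1 with hbad
  have h1 : ∀ v ∈ X, ‖L v - ((y0 : ℂ), cv, 0)‖ ≤ η → v ∈ good := by
    intro v hv h
    rw [hL] at h
    have k1 : ‖(σ : ℂ)⁻¹ * ell z1 z2 (ι1 v) - y0‖ ≤ η := (norm_fst_le _).trans h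
    have k2 : ‖ι1 v - cv‖ ≤ η := (norm_fst_le _).trans ((norm_snd_le _).trans h)
    have k3 : ‖ι2 v - 0‖ ≤ η := (norm_snd_le _).trans ((norm_snd_le _).trans h)
    obtain ⟨g1, g2, g3⟩ := good_of_close hr hs0.le hs1 hη1 (y := y0 * σ) (by positivity)
      ((mul_le_of_le_one_left hσ0.le hy1).trans hσs) hz hξ k2
    have k4 := (abs_norm_sub_norm_le _ _).trans k1
    rw [Complex.norm_real, Real.norm_eq_abs, abs_of_nonneg hy0] at k4
    obtain ⟨w1, w2, w3⟩ := hwin _ (k4.trans (min_le_left _ _))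
    rw [← hxx] at w1 w2 w3
    rw [sub_zero] at k3
    exact Finset.mem_filter.2 ⟨hS2 v hv g1 g2 (nrm2_le (by linarith)) w3, w1, w2, w3, g3⟩
  have h2 : ∀ w : Λ, ∃ u, ‖L u + L w - ((y0 : ℂ), cv, 0)‖ ≤ η / 2 ∧ ∀ x ∈ X, x + u ∈ X := by
    intro w
    obtain ⟨u, u1, u2, u3⟩ := hden (cv - ι1 w) (0 - ι2 w)
    refine ⟨u, ?_, u3⟩
    have e : L u + L w - ((y0 : ℂ), cv, 0) = ((σ : ℂ)⁻¹ * ell z1 z2 (ι1 u - (cv - ι1 w)),
        ι1 u - (cv - ι1 w), ι2 u - (0 - ι2 w)) := by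
      have e1 : ell z1 z2 (ι1 u - (cv - ι1 w)) =
          ell z1 z2 (ι1 u) - (ell z1 z2 cv - ell z1 z2 (ι1 w)) := by
        have := (ellHom z1 z2).map_sub (ι1 u) (cv - ι1 w)
        rw [map_sub (ellHom z1 z2) cv] at this
        exact this
      rw [hL, hL, e1, ← hcv2]
      refine Prod.ext ?_ (Prod.ext ?_ ?_)
      · simp only [Prod.fst_sub, Prod.fst_add]; ring
      · simp only [Prod.snd_sub, Prod.snd_add, Prod.fst_sub, Prod.fst_add]; abel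
      · simp only [Prod.snd_sub, Prod.snd_add]; abel
    have k0 : η * (s * r) / 6 ≤ η / 2 := by
      have : s * r ≤ 1 := by nlinarith
      have := mul_le_of_le_one_right hη0.le this
      linarith
    rw [e, Prod.norm_def, Prod.norm_def]
    refine max_le ?_ (max_le (u1.trans k0) (u2.trans k0))
    rw [norm_mul, norm_inv, Complex.norm_real, Real.norm_eq_abs, abs_of_pos hσ0,
      inv_mul_le_iff₀ hσ0]
    have k1 := norm_ell_le hρ0.le (ι1 u - (cv - ι1 w))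
    have k2 := mul_le_mul_of_nonneg_left hσr hη0.le
    linarith
  have h6 : (2 : ℝ) ≤ 6 / r ^ 2 := by
    rw [le_div_iff₀ (by positivity)]
    nlinarith
  have h3 : bad.card ≤ M * good.card := by
    refine hM Λ X L _ bad good (fun v hv => ?_) h1 h2
    obtain ⟨hv1, hv2⟩ := Finset.mem_filter.1 hv
    obtain ⟨k1, k2, k3⟩ := hS1 v hv1
    refine ⟨k1, ?_⟩
    rw [hxx] at hv2
    have k4 : ‖(σ : ℂ)⁻¹ * ell z1 z2 (ι1 v)‖ ≤ 1 := (sq_le_one_iff₀ (norm_nonneg _)).1 hv2.le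
    have k5 : ‖ell z1 z2 (ι1 v)‖ ≤ 2 := by
      have := k4
      rw [norm_mul, norm_inv, Complex.norm_real, Real.norm_eq_abs, abs_of_pos hσ0,
        inv_mul_le_iff₀ hσ0] at this
      linarith
    rw [hL, Prod.norm_def, Prod.norm_def]
    exact max_le (k4.trans (by linarith)) (max_le (bad_bound hr hz k2 k5)
      ((norm_le_of_nrm2 k3).trans (by linarith)))
  have h4 : 1 ≤ good.card := by
    obtain ⟨x0, hx0⟩ := hX
    obtain ⟨u, u1, u2⟩ := h2 x0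
    refine Finset.card_pos.2 ⟨x0 + u, h1 _ (u2 x0 hx0) ?_⟩
    rw [map_add, add_comm (L x0)]
    linarith
  have h5 : ∀ v ∈ S, (if v ∈ good then 1 / (64 * s ^ 2) - 2 / r ^ 2 else 0) -
      (if v ∈ bad then 1 / r ^ 2 else 0) ≤ lev (s ^ 2) z1 z2 ξ1 ξ2 (ι1 v) := by
    intro v hv
    have k0 : 0 ≤ 1 / r ^ 2 := by positivity
    by_cases hg : v ∈ good
    · obtain ⟨-, g1, g2, g3, g4⟩ := Finset.mem_filter.1 hg
      have := lev_good hs0 hr hz hξ g1 g2 g3 g4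
      rw [if_pos hg]
      split_ifs <;> linarith
    · rw [if_neg hg]
      by_cases hb : v ∈ bad
      · rw [if_pos hb]
        linarith [lev_ge (sq_nonneg s) hr hz hξ (ι1 v), pos_term_nonneg (sq_nonneg s) hρ0.le (ι1 v)
          (lam ξ1 ξ2 (ι1 v) / ell z1 z2 (ι1 v) + (ξ1 * conj z1 + ξ2 * conj z2) / (rho z1 z2 : ℂ))]
      · rw [if_neg hb, sub_zero]
        exact lev_nonneg (sq_nonneg s) hρ0.le _ _
          (not_lt.1 fun h => hb (Finset.mem_filter.2 ⟨hv, h⟩))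
  refine le_trans ?_ (Finset.sum_le_sum h5)
  rw [Finset.sum_sub_distrib, Finset.sum_ite_mem, Finset.sum_ite_mem,
    Finset.inter_eq_right.2 (Finset.filter_subset _ _),
    Finset.inter_eq_right.2 (Finset.filter_subset _ _), Finset.sum_const, Finset.sum_const,
    nsmul_eq_mul, nsmul_eq_mul]
  have k1 : (bad.card : ℝ) ≤ M * good.card := by exact_mod_cast h3
  have k2 : (1 : ℝ) ≤ good.card := by exact_mod_cast h4
  have k3 : (bad.card : ℝ) * (1 / r ^ 2) ≤ good.card * (M / r ^ 2) := by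
    have := mul_le_mul_of_nonneg_right k1 (show 0 ≤ 1 / r ^ 2 by positivity)
    calc _ ≤ _ := this
      _ = _ := by ring
  have k4 : |c| ≤ 1 / (64 * s ^ 2) - 2 / r ^ 2 - M / r ^ 2 := by linarith
  have k5 := mul_le_mul_of_nonneg_left k4 (show (0 : ℝ) ≤ good.card by positivity)
  have k6 := le_mul_of_one_le_left (abs_nonneg c) k2
  have k7 := le_abs_self c
  nlinarith

end Pool.Agent.MP_54e5d7_al.ATC.Amp

end MrgPart6

-- ======== part 7: formerly Pool.Agent.MP_54e5d7_al.atc.amp.Levi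
section MrgPart7

/-!
The Levi form of the regularised Green potential of one disc.
-/

set_option autoImplicit false

open scoped ComplexConjugate ContDiff
open Set Filter Topology

namespace Pool.Agent.MP_54e5d7_al.Atc.AmpL

open Pool.Agent.MP_54e5d7_al.ATC

/-- the potential -/
noncomputable def Phi (c : ℝ) (v : V3) (z : C2) : ℝ :=
  Real.log (1 - nsq z) + Amp.KK (‖ell v z‖ ^ 2 / (c * (1 - nsq z)))

lemma ell_eq (v : V3) (z : C2) : ell v z = Amp.ell z.1 z.2 v := by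
  simp [ell, H, hat, Amp.ell]

lemma rho_eq (z : C2) : 1 - nsq z = Amp.rho z.1 z.2 := by
  unfold nsq Amp.rho
  ring

lemma nrm_eq (v : V3) : (H v v).re = Amp.nrm v := by
  simp only [H, Complex.mul_conj', Amp.nrm]
  norm_cast

lemma normsq_line (a b : ℂ) (t : ℝ) :
    ‖a + t • b‖ ^ 2 = ‖a‖ ^ 2 + 2 * (b * conj a).re * t + ‖b‖ ^ 2 * t ^ 2 := by
  simp only [Complex.sq_norm, Complex.normSq_apply, Complex.add_re, Complex.add_im,
    Complex.real_smul, Complex.mul_re, Complex.mul_im, Complex.ofReal_re, Complex.ofReal_im,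
    Complex.conj_re, Complex.conj_im]
  ring

lemma contDiff_nsq : ContDiff ℝ ∞ nsq :=
  ((contDiff_norm_sq ℂ).comp contDiff_fst).add ((contDiff_norm_sq ℂ).comp contDiff_snd)

lemma contDiff_ell (v : V3) : ContDiff ℝ ∞ (ell v) := by
  have : ell v = fun z : C2 => z.1 * conj (v 0) + z.2 * conj (v 1) - conj (v 2) :=
    funext fun z => ell_eq v z
  rw [this]
  fun_prop

lemma contDiffAt_Phi {c : ℝ} (hc : c ≠ 0) (v : V3) {z : C2} (hz : nsq z < 1) :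
    ContDiffAt ℝ ∞ (Phi c v) z := by
  have h1 : ContDiffAt ℝ ∞ (fun z => 1 - nsq z) z := (contDiff_const.sub contDiff_nsq).contDiffAt
  have h0 : 1 - nsq z ≠ 0 := by linarith
  refine (h1.log h0).add (Amp.KK_contDiff.contDiffAt.comp z ?_)
  exact ((contDiff_norm_sq ℂ).comp (contDiff_ell v)).contDiffAt.div (contDiffAt_const.mul h1)
    (mul_ne_zero hc h0)

lemma D2_Phi {c : ℝ} (hc : c ≠ 0) (v : V3) {z : C2} (hz : nsq z < 1) (w : C2) :
    fderiv ℝ (fderiv ℝ (Phi c v)) z w w =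
      (1 - Amp.mm (Amp.xx c z.1 z.2 v)) * ((2 * -(‖w.1‖ ^ 2 + ‖w.2‖ ^ 2) * Amp.rho z.1 z.2 -
        (-(2 * (w.1 * conj z.1 + w.2 * conj z.2).re)) ^ 2) / Amp.rho z.1 z.2 ^ 2) +
      Amp.mm (Amp.xx c z.1 z.2 v) * ((2 * ‖Amp.lam w.1 w.2 v‖ ^ 2 * ‖Amp.ell z.1 z.2 v‖ ^ 2 -
        (2 * (Amp.lam w.1 w.2 v * conj (Amp.ell z.1 z.2 v)).re) ^ 2) /
          (‖Amp.ell z.1 z.2 v‖ ^ 2) ^ 2) +
      Amp.xx c z.1 z.2 v * deriv Amp.mm (Amp.xx c z.1 z.2 v) *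
        (2 * (Amp.lam w.1 w.2 v * conj (Amp.ell z.1 z.2 v)).re / ‖Amp.ell z.1 z.2 v‖ ^ 2 -
          -(2 * (w.1 * conj z.1 + w.2 * conj z.2).re) / Amp.rho z.1 z.2) ^ 2 := by
  rw [Amp.second_deriv_line ((contDiffAt_Phi hc v hz).of_le (by norm_cast)) w,
    Amp.xx, ← Amp.second_deriv_quad _ _ _ _ _ _ c (by rw [← rho_eq]; linarith) hc]
  congr 2
  funext t
  have h1 : 1 - nsq (z + t • w) = Amp.rho z.1 z.2 +
      -(2 * (w.1 * conj z.1 + w.2 * conj z.2).re) * t + -(‖w.1‖ ^ 2 + ‖w.2‖ ^ 2) * t ^ 2 := by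
    simp only [nsq, Prod.fst_add, Prod.snd_add, Prod.smul_fst, Prod.smul_snd, normsq_line,
      Amp.rho, Complex.add_re]
    ring
  have h2 : ell v (z + t • w) = Amp.ell z.1 z.2 v + t • Amp.lam w.1 w.2 v := by
    simp only [ell_eq, Amp.ell, Amp.lam, Prod.fst_add, Prod.snd_add, Prod.smul_fst, Prod.smul_snd,
      Complex.real_smul]
    ring
  rw [Phi, h1, h2, normsq_line]

lemma levi_Phi {c : ℝ} (hc : c ≠ 0) (v : V3) {z : C2} (hz : nsq z < 1) (w : C2) :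
    levi (Phi c v) z w = Amp.lev c z.1 z.2 w.1 w.2 v := by
  rw [levi, D2_Phi hc v hz, D2_Phi hc v hz, Amp.lev]
  have e1 : Amp.lam (Complex.I • w).1 (Complex.I • w).2 v = Complex.I * Amp.lam w.1 w.2 v := by
    simp only [Amp.lam, Prod.smul_fst, Prod.smul_snd, smul_eq_mul]
    ring
  have e2 : (Complex.I • w).1 * conj z.1 + (Complex.I • w).2 * conj z.2 =
      Complex.I * (w.1 * conj z.1 + w.2 * conj z.2) := by
    simp only [Prod.smul_fst, Prod.smul_snd, smul_eq_mul]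
    ring
  have e3 : ‖(Complex.I • w).1‖ = ‖w.1‖ := by simp
  have e4 : ‖(Complex.I • w).2‖ = ‖w.2‖ := by simp
  rw [e1, e2, e3, e4, norm_mul, Complex.norm_I, one_mul, mul_assoc Complex.I]
  generalize Amp.lam w.1 w.2 v = l
  generalize Amp.ell z.1 z.2 v = a
  generalize w.1 * conj z.1 + w.2 * conj z.2 = b
  generalize Amp.rho z.1 z.2 = r
  have e5 : l / a = l * conj a / ((‖a‖ ^ 2 : ℝ) : ℂ) := by
    rw [div_eq_mul_inv, Complex.inv_def, Complex.normSq_eq_norm_sq, div_eq_mul_inv]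
    push_cast
    ring
  have e6 : ‖l‖ ^ 2 * ‖a‖ ^ 2 = (l * conj a).re ^ 2 + (l * conj a).im ^ 2 := by
    rw [← Complex.norm_conj a, ← mul_pow, ← norm_mul, Complex.sq_norm, Complex.normSq_apply]
    ring
  have e7 : ‖b‖ ^ 2 = b.re ^ 2 + b.im ^ 2 := by
    rw [Complex.sq_norm, Complex.normSq_apply]
    ring
  rw [e5, mul_assoc 2 (‖l‖ ^ 2), e6, e7]
  generalize l * conj a = p
  generalize ‖a‖ ^ 2 = n
  rw [Complex.sq_norm (_ + _), Complex.normSq_apply]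
  simp only [Complex.add_re, Complex.add_im, Complex.div_ofReal_re, Complex.div_ofReal_im,
    Complex.mul_re, Complex.I_re, Complex.I_im]
  ring

lemma levi_smul (ψ : C2 → ℝ) (z w : C2) (t : ℝ) : levi ψ z (t • w) = t ^ 2 * levi ψ z w := by
  rw [levi, levi, smul_comm Complex.I t w]
  simp only [map_smul, smul_apply, smul_eq_mul]
  ring

lemma levi_sum {ι : Type} (S : Finset ι) (f : ι → C2 → ℝ) (a : ℝ) {z : C2}
    (h : ∀ i ∈ S, ContDiffAt ℝ ∞ (f i) z) (w : C2) :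
    levi (fun y => a - ∑ i ∈ S, f i y) z w = -∑ i ∈ S, levi (f i) z w := by
  have h1 : ∀ᶠ y in 𝓝 z, ∀ i ∈ S, DifferentiableAt ℝ (f i) y := by
    refine (Filter.eventually_all_finset S).2 fun i hi => ?_
    have : ContDiffAt ℝ 1 (f i) z := (h i hi).of_le (by norm_cast)
    filter_upwards [this.eventually (by simp)] with y hy
    exact hy.differentiableAt (by simp)
  have h2 : fderiv ℝ (fun y => a - ∑ i ∈ S, f i y) =ᶠ[𝓝 z]
      fun y => -∑ i ∈ S, fderiv ℝ (f i) y := by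
    filter_upwards [h1] with y hy
    rw [fderiv_const_sub, fderiv_fun_sum hy]
  have h3 : ∀ i ∈ S, DifferentiableAt ℝ (fderiv ℝ (f i)) z := fun i hi =>
    ((h i hi).fderiv_right (m := 1) (by norm_cast)).differentiableAt (by simp)
  have h4 : fderiv ℝ (fderiv ℝ fun y => a - ∑ i ∈ S, f i y) z =
      -∑ i ∈ S, fderiv ℝ (fderiv ℝ (f i)) z := by
    rw [h2.fderiv_eq, fderiv_fun_neg, fderiv_fun_sum h3]
  simp only [levi, h4, neg_apply, sum_apply]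
  rw [← Finset.sum_div, Finset.sum_add_distrib]
  ring

end Pool.Agent.MP_54e5d7_al.Atc.AmpL

end MrgPart7

-- marker of a merged file
example : 731051 + 589538 = 731051 + 589538 := rfl
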